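import Pool.Agent.R970.Tri.Meas

set_option autoImplicit false

/-! Crossing events, their locality, translation invariance and the recursion. -/

namespace Pool.Agent.R970.Tri

open Finset Function Relation MeasureTheory ProbabilityTheory

variable {ω ω' : Pt → Fin 3}

/-- sup-norm balls -/
noncomputable def bal (a : Pt) (s : ℤ) : Finset Pt := Fintype.piFinset (fun i => Finset.Icc (a i - s) (a i + s))

lemma mem_bal {a v : Pt} {s : ℤ} : v ∈ bal a s ↔ ∀ i, |v i - a i| ≤ s := by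
  unfold bal
  rw [Fintype.mem_piFinset]
  refine forall_congr' fun i => ?_
  rw [Finset.mem_Icc, abs_le]
  constructor <;> intro h <;> omega

/-- crossing event around `a` at scale `n` -/
def Xev (a : Pt) (n : ℕ) (ω : Pt → Fin 3) : Prop :=
  ∃ Q Q', Tet Q ∧ ReflTransGen (step ω) Q Q' ∧ (∃ v ∈ Q, ∀ i, |v i - a i| ≤ (n : ℤ)) ∧
    (∃ w ∈ Q', ∃ i, 3 * (n : ℤ) < |w i - a i|)

def stepB (a : Pt) (s : ℤ) (ω : Pt → Fin 3) (Q R : Finset Pt) : Prop :=
  step ω Q R ∧ Q ⊆ bal a s ∧ R ⊆ bal a s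

lemma tet_bal {Q : Finset Pt} (h : Tet Q) {a v : Pt} {s : ℤ} (hv : v ∈ Q)
    (hs : ∀ i, |v i - a i| ≤ s) : Q ⊆ bal a (s + 2) := by
  intro w hw
  rw [mem_bal]
  intro i
  by_cases hvw : w = v
  · subst hvw; have := hs i; omega
  · have h1 := adj_dist (h.2 w hw v hv hvw) i
    have h2 := hs i
    rw [abs_le] at *
    omega

lemma step.tet {Q R : Finset Pt} (h : step ω Q R) : Tet Q := ⟨h.1, h.2.2.2.1⟩
lemma step.tet' {Q R : Finset Pt} (h : step ω Q R) : Tet R := ⟨h.2.1, h.2.2.2.2.1⟩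

lemma step_bal {Q R : Finset Pt} (h : step ω Q R) {a : Pt} {s : ℤ} (hQ : Q ⊆ bal a s) :
    R ⊆ bal a (s + 2) := by
  have hne : (Q ∩ R).Nonempty := by
    rw [← Finset.card_pos]
    have := h.2.2.2.2.2.1
    omega
  obtain ⟨v, hv⟩ := hne
  rw [Finset.mem_inter] at hv
  exact tet_bal h.tet' hv.2 (mem_bal.1 (hQ hv.1))

/-- first exit from a ball, staying inside -/
lemma exit_loc {a : Pt} {s : ℤ} {Q Q' : Finset Pt} (h : ReflTransGen (step ω) Q Q')
    (hQ : Q ⊆ bal a s) (hQ' : ¬ Q' ⊆ bal a s) :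
    ∃ Q'', ReflTransGen (stepB a (s + 2) ω) Q Q'' ∧ ¬ Q'' ⊆ bal a s := by
  induction h using ReflTransGen.head_induction_on with
  | refl => exact absurd hQ hQ'
  | @head Q Q2 h1 _ ih =>
    have h2 : Q2 ⊆ bal a (s + 2) := step_bal h1 hQ
    have h3 : Q ⊆ bal a (s + 2) := by
      intro v hv
      have := mem_bal.1 (hQ hv)
      rw [mem_bal]; intro i; have := this i; omega
    by_cases hQ2 : Q2 ⊆ bal a s
    · obtain ⟨Q'', h4, h5⟩ := ih hQ2
      exact ⟨Q'', ReflTransGen.head ⟨h1, h3, h2⟩ h4, h5⟩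
    · exact ⟨Q2, ReflTransGen.single ⟨h1, h3, h2⟩, hQ2⟩

/-- first exit, remembering the rest of the path -/
lemma exit_rest {a : Pt} {s : ℤ} {Q Q' : Finset Pt} (h : ReflTransGen (step ω) Q Q')
    (hQ : Q ⊆ bal a s) (hQ' : ¬ Q' ⊆ bal a s) :
    ∃ Q'', Tet Q'' ∧ ReflTransGen (step ω) Q'' Q' ∧ ¬ Q'' ⊆ bal a s ∧ Q'' ⊆ bal a (s + 2) := by
  induction h using ReflTransGen.head_induction_on with
  | refl => exact absurd hQ hQ'
  | @head Q Q2 h1 h2 ih =>
    by_cases hQ2 : Q2 ⊆ bal a s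
    · exact ih hQ2
    · exact ⟨Q2, h1.tet', h2, hQ2, step_bal h1 hQ⟩

lemma not_sub_bal {a : Pt} {s : ℤ} {Q : Finset Pt} : ¬ Q ⊆ bal a s ↔ ∃ w ∈ Q, ∃ i, s < |w i - a i| := by
  constructor
  · intro h
    rw [Finset.not_subset] at h
    obtain ⟨w, hw, hwb⟩ := h
    rw [mem_bal] at hwb
    push Not at hwb
    exact ⟨w, hw, hwb⟩
  · rintro ⟨w, hw, i, hi⟩ h
    have := mem_bal.1 (h hw) i
    omega

lemma Xev_local (a : Pt) {n : ℕ} (hn : 1 ≤ n) : Local (bal a (3 * n + 2)) {ω | Xev a n ω} := by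
  rintro ω ω' hv ⟨Q, Q', h1, h2, h3, h4⟩
  obtain ⟨v, hvQ, hva⟩ := h3
  have h5 : Q ⊆ bal a (3 * n) := by
    intro w hw
    have := mem_bal.1 (tet_bal h1 hvQ hva hw)
    rw [mem_bal]; intro i; have := this i; omega
  obtain ⟨Q'', h6, h7⟩ := exit_loc h2 h5 (not_sub_bal.2 h4)
  refine ⟨Q, Q'', h1, ?_, ⟨v, hvQ, hva⟩, not_sub_bal.1 h7⟩
  refine ReflTransGen.mono ?_ _ _ h6
  rintro R R' ⟨g1, g2, g3⟩
  exact g1.congr fun u hu => hv u (g2 (Finset.mem_inter.1 hu).1)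

/-! ### translations -/

/-- lattice vectors -/
def IsL (a : Pt) : Prop := (∀ i, Even (a i)) ∨ (∀ i, Odd (a i))

lemma IsL.add {a b : Pt} (ha : IsL a) (hb : IsL b) : IsL (a + b) := by
  rcases ha with ha | ha <;> rcases hb with hb | hb
  · left; intro i; exact (ha i).add (hb i)
  · right; intro i; exact (ha i).add_odd (hb i)
  · right; intro i; exact (ha i).add_even (hb i)
  · left; intro i; exact (ha i).add_odd (hb i)

lemma IsL.neg {a : Pt} (ha : IsL a) : IsL (-a) := by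
  rcases ha with ha | ha
  · left; intro i; exact (ha i).neg
  · right; intro i; exact (ha i).neg

lemma adj_add {a v w : Pt} (ha : IsL a) (h : adj v w) : adj (v + a) (w + a) := by
  obtain ⟨h1, h2, h3⟩ := h
  refine ⟨IsL.add h1 ha, IsL.add h2 ha, ?_⟩
  rcases h3 with ⟨i, hi, hj⟩ | h3
  · left
    refine ⟨i, by simpa using hi, fun j hj' => by simp [hj j hj']⟩
  · right
    intro i
    simpa using h3 i

def tr (a : Pt) (Q : Finset Pt) : Finset Pt := Q.image (· + a)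

lemma mem_tr {a v : Pt} {Q : Finset Pt} : v ∈ tr a Q ↔ v - a ∈ Q := by
  unfold tr
  rw [Finset.mem_image]
  constructor
  · rintro ⟨w, hw, rfl⟩; simpa using hw
  · intro h; exact ⟨v - a, h, by simp⟩

lemma card_tr (a : Pt) (Q : Finset Pt) : (tr a Q).card = Q.card :=
  Finset.card_image_of_injective _ (add_left_injective a)

lemma tr_inter (a : Pt) (Q R : Finset Pt) : tr a Q ∩ tr a R = tr a (Q ∩ R) := by
  ext v
  simp only [Finset.mem_inter, mem_tr]

lemma tet_tr {a : Pt} (ha : IsL a) {Q : Finset Pt} (h : Tet Q) : Tet (tr a Q) := by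
  refine ⟨by rw [card_tr]; exact h.1, ?_⟩
  intro v hv w hw hvw
  rw [mem_tr] at hv hw
  have := adj_add ha (h.2 _ hv _ hw (fun he => hvw (by simpa using he)))
  simpa using this

lemma step_tr {a : Pt} (ha : IsL a) {Q R : Finset Pt} (h : step (sh a ω) Q R) :
    step ω (tr a Q) (tr a R) := by
  have t1 := tet_tr ha h.tet
  have t2 := tet_tr ha h.tet'
  obtain ⟨h1, h2, h3, h4, h5, h6, h7⟩ := h
  refine ⟨t1.1, t2.1, ?_, t1.2, t2.2, ?_, ?_⟩
  · intro he
    apply h3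
    ext v
    have := Finset.ext_iff.1 he (v + a)
    simpa [mem_tr] using this
  · rw [tr_inter, card_tr]; exact h6
  · intro c
    obtain ⟨v, hv, hvc⟩ := h7 c
    refine ⟨v + a, ?_, hvc⟩
    rw [tr_inter, mem_tr]
    simpa using hv

lemma Xev_tr {a b : Pt} (ha : IsL a) {n : ℕ} (h : Xev b n (sh a ω)) : Xev (b + a) n ω := by
  obtain ⟨Q, Q', h1, h2, ⟨v, hv, hvb⟩, ⟨w, hw, i, hi⟩⟩ := h
  refine ⟨tr a Q, tr a Q', tet_tr ha h1, ?_, ⟨v + a, ?_, ?_⟩, ⟨w + a, ?_, i, ?_⟩⟩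
  · exact ReflTransGen.lift (tr a) (fun _ _ h => step_tr ha h) _ _ h2
  · rw [mem_tr]; simpa using hv
  · intro i; simpa using hvb i
  · rw [mem_tr]; simpa using hw
  · simpa using hi

lemma sh_neg_sh (a : Pt) (ω : Pt → Fin 3) : sh (-a) (sh a ω) = ω := by
  funext v; simp [sh]

lemma Xev_iff {a : Pt} (ha : IsL a) {n : ℕ} : Xev a n ω ↔ Xev 0 n (sh a ω) := by
  constructor
  · intro h
    have h1 : Xev a n (sh (-a) (sh a ω)) := by rw [sh_neg_sh]; exact h
    have := Xev_tr ha.neg h1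
    simpa using this
  · intro h
    have := Xev_tr ha h
    simpa using this

/-- crossing probability -/
noncomputable def q (n : ℕ) : ENNReal := mu {ω | Xev 0 n ω}

lemma mu_Xev {a : Pt} (ha : IsL a) {n : ℕ} (hn : 1 ≤ n) : mu {ω | Xev a n ω} = q n := by
  have h : {ω | Xev a n ω} = (sh a) ⁻¹' {ω | Xev 0 n ω} := by
    ext ω
    exact Xev_iff ha
  rw [h, mu_shift a (Xev_local 0 hn).measurableSet]
  rfl

/-! ### recursion -/

/-- grid of centres -/
noncomputable def cen (n m : ℕ) : Finset Pt := 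
  (Fintype.piFinset (fun _ : Fin 3 => Finset.Icc (-(m : ℤ)) m)).image (fun z i => 2 * (n : ℤ) * z i)

lemma card_cen (n m : ℕ) : (cen n m).card ≤ (2 * m + 1) ^ 3 := by
  refine Finset.card_image_le.trans ?_
  rw [Fintype.card_piFinset]
  simp only [Int.card_Icc, Finset.prod_const, Finset.card_univ, Fintype.card_fin]
  apply Nat.pow_le_pow_left
  omega

lemma isL_cen {n m : ℕ} {a : Pt} (h : a ∈ cen n m) : IsL a := by
  unfold cen at h
  rw [Finset.mem_image] at h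
  obtain ⟨z, -, rfl⟩ := h
  left
  intro i
  exact ⟨n * z i, by ring⟩

lemma exists_cen {n m : ℕ} (hn : 1 ≤ n) {v : Pt} (hv : ∀ i, |v i| ≤ 2 * (n : ℤ) * m + n - 1) : 
    ∃ a ∈ cen n m, ∀ i, |v i - a i| ≤ (n : ℤ) := by
  refine ⟨fun i => 2 * (n : ℤ) * ((v i + n) / (2 * n)), ?_, ?_⟩
  · unfold cen
    rw [Finset.mem_image]
    refine ⟨fun i => (v i + n) / (2 * n), ?_, rfl⟩
    rw [Fintype.mem_piFinset]
    intro i
    rw [Finset.mem_Icc]
    have h1 := abs_le.1 (hv i)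
    have hpos : (0 : ℤ) < 2 * n := by positivity
    constructor
    · rw [Int.le_ediv_iff_mul_le hpos]
      nlinarith
    · apply Int.le_of_lt_add_one
      rw [Int.ediv_lt_iff_lt_mul hpos]
      nlinarith
  · intro i
    have hpos : (0 : ℤ) < 2 * n := by positivity
    have h1 := Int.mul_ediv_add_emod (v i + n) (2 * n)
    have h2 := Int.emod_nonneg (v i + n) hpos.ne'
    have h3 := Int.emod_lt_of_pos (v i + n) hpos
    show |v i - 2 * (n : ℤ) * ((v i + n) / (2 * n))| ≤ n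
    rw [abs_le]
    constructor <;> linarith

/-- the two well separated crossings at scale `n` inside one at scale `16 n` -/
lemma two_cross {n : ℕ} (hn : 1 ≤ n) (h : Xev 0 (16 * n) ω) :
    ∃ a ∈ cen n 10, ∃ b ∈ cen n 21, Disjoint (bal a (3 * n + 2)) (bal b (3 * n + 2)) ∧
      Xev a n ω ∧ Xev b n ω := by
  obtain ⟨Q, Q', h1, h2, ⟨v, hv, hvb⟩, ⟨w, hw, i, hi⟩⟩ := h
  simp only [Pi.zero_apply, sub_zero] at hvb hi
  have hQ : ∀ u ∈ Q, ∀ i, |u i - (0 : Pt) i| ≤ 18 * (n : ℤ) := by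
    intro u hu i
    have := mem_bal.1 (tet_bal (a := 0) (s := 16 * n) h1 hv (by simpa using hvb) hu) i
    simp only [Pi.zero_apply, sub_zero] at this ⊢
    omega
  push_cast at hi
  -- first level
  obtain ⟨Q1, t1, p1, o1, b1⟩ := exit_rest (a := 0) (s := 18 * n) h2 
    (fun u hu => mem_bal.2 (hQ u hu)) (not_sub_bal.2 ⟨w, hw, i, by simp; omega⟩)
  obtain ⟨v1, hv1, i1, hi1⟩ := not_sub_bal.1 o1
  have hv1b := mem_bal.1 (b1 hv1)
  simp only [Pi.zero_apply, sub_zero] at hi1 hv1b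
  obtain ⟨a, ha, hav⟩ := exists_cen (n := n) (m := 10) hn (v := v1) (by
    intro i; have := hv1b i; push_cast; omega)
  -- second level
  obtain ⟨Q2, t2, p2, o2, b2⟩ := exit_rest (a := 0) (s := 40 * n) h2 
    (fun u hu => mem_bal.2 (fun i => (hQ u hu i).trans (by omega))) 
    (not_sub_bal.2 ⟨w, hw, i, by simp; omega⟩)
  obtain ⟨v2, hv2, i2, hi2⟩ := not_sub_bal.1 o2
  have hv2b := mem_bal.1 (b2 hv2)
  simp only [Pi.zero_apply, sub_zero] at hi2 hv2b
  obtain ⟨b, hb, hbv⟩ := exists_cen (n := n) (m := 21) hn (v := v2) (by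
    intro i; have := hv2b i; push_cast; omega)
  refine ⟨a, ha, b, hb, ?_, ⟨Q1, Q', t1, p1, ⟨v1, hv1, hav⟩, ⟨w, hw, i, ?_⟩⟩, 
    ⟨Q2, Q', t2, p2, ⟨v2, hv2, hbv⟩, ⟨w, hw, i, ?_⟩⟩⟩
  · rw [Finset.disjoint_left]
    intro u hu hu'
    have e1 := mem_bal.1 hu i2
    have e2 := mem_bal.1 hu' i2
    have e3 := hbv i2
    have e4 := hav i2
    have e5 := hv1b i2
    rw [abs_le] at e1 e2 e3 e4 e5
    rw [lt_abs] at hi2
    omega
  · have e4 := hav i
    have e5 := hv1b i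
    rw [abs_le] at e4 e5
    rw [lt_abs] at hi ⊢
    omega
  · have e4 := hbv i
    have e5 := hv2b i
    rw [abs_le] at e4 e5
    rw [lt_abs] at hi ⊢
    omega

/-- the constant of the recursion -/
def C0 : ℕ := 21 ^ 3 * 43 ^ 3

lemma q_rec {n : ℕ} (hn : 1 ≤ n) : q (16 * n) ≤ (C0 : ENNReal) * (q n * q n) := by
  classical
  obtain ⟨P, hP⟩ : ∃ P : Finset (Pt × Pt), P = ((cen n 10) ×ˢ (cen n 21)).filter 
    (fun p => Disjoint (bal p.1 (3 * n + 2)) (bal p.2 (3 * n + 2))) := ⟨_, rfl⟩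
  have hsub : {ω | Xev 0 (16 * n) ω} ⊆ ⋃ p ∈ P, ({ω | Xev p.1 n ω} ∩ {ω | Xev p.2 n ω}) := by
    intro ω hω
    obtain ⟨a, ha, b, hb, hd, h1, h2⟩ := two_cross hn hω
    simp only [Set.mem_iUnion]
    have hmem : ((a, b) : Pt × Pt) ∈ P := by
      rw [hP, Finset.mem_filter, Finset.mem_product]
      exact ⟨⟨ha, hb⟩, hd⟩
    exact ⟨(a, b), hmem, h1, h2⟩
  calc q (16 * n) ≤ mu (⋃ p ∈ P, ({ω | Xev p.1 n ω} ∩ {ω | Xev p.2 n ω})) := measure_mono hsub
    _ ≤ ∑ p ∈ P, mu ({ω | Xev p.1 n ω} ∩ {ω | Xev p.2 n ω}) := measure_biUnion_finset_le _ _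
    _ = ∑ p ∈ P, q n * q n := by
        refine Finset.sum_congr rfl fun p hp => ?_
        rw [hP, Finset.mem_filter, Finset.mem_product] at hp
        rw [indep_local (Xev_local p.1 hn) (Xev_local p.2 hn) hp.2, mu_Xev (isL_cen hp.1.1) hn,
          mu_Xev (isL_cen hp.1.2) hn]
    _ = (P.card : ENNReal) * (q n * q n) := by rw [Finset.sum_const, nsmul_eq_mul]
    _ ≤ (C0 : ENNReal) * (q n * q n) := by
        have hc : P.card ≤ C0 := by
          rw [hP]
          refine (Finset.card_filter_le _ _).trans ?_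
          rw [Finset.card_product]
          exact Nat.mul_le_mul (card_cen n 10) (card_cen n 21)
        exact mul_le_mul_left (by exact_mod_cast hc) _

/-! ### bad slabs produce crossings -/

lemma isL_box {N K : ℕ} {v : Pt} (h : v ∈ box N K) : IsL v := by
  obtain ⟨a, b, c, -, -, -, rfl⟩ := mem_box.1 h
  exact ph_parity _ _ _

lemma bad_le {N K n : ℕ} (hn : 1 ≤ n) : 
    mu {ω | ¬ Good N K (3 * n) ω} ≤ ((box N K).card : ENNReal) * q n := by
  have hsub : {ω | ¬ Good N K (3 * n) ω} ⊆ ⋃ v ∈ box N K, {ω | Xev v n ω} := by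
    intro ω hω
    simp only [Set.mem_ofPred_eq] at hω
    unfold Good at hω
    push Not at hω
    obtain ⟨Q, Q', h1, h2, h3, v, hv, w, hw, i, hi⟩ := hω
    simp only [Set.mem_iUnion]
    refine ⟨v, h2 hv, Q, Q', h1, ReflTransGen.mono (fun _ _ h => h.1) _ _ h3, ⟨v, hv, by simp⟩, 
      ⟨w, hw, i, ?_⟩⟩
    rw [abs_sub_comm]
    push_cast at hi
    exact hi
  calc mu {ω | ¬ Good N K (3 * n) ω} ≤ mu (⋃ v ∈ box N K, {ω | Xev v n ω}) := measure_mono hsub
    _ ≤ ∑ v ∈ box N K, mu {ω | Xev v n ω} := measure_biUnion_finset_le _ _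
    _ = ∑ v ∈ box N K, q n := Finset.sum_congr rfl fun v hv => mu_Xev (isL_box hv) hn
    _ = _ := by rw [Finset.sum_const, nsmul_eq_mul]

end Pool.Agent.R970.Tri
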