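import Mathlib

set_option autoImplicit false

/-! Tricolor percolation on the body-centred cubic lattice: basic definitions and
Kuhn coordinates. -/

namespace Pool.Agent.R970.Tri

open Finset Function

/-- points of `ℤ³` -/
abbrev Pt := Fin 3 → ℤ

/-- adjacency of cells of the body-centred cubic lattice `2ℤ³ ∪ (2ℤ³+(1,1,1))` -/
def adj (v w : Pt) : Prop :=
  (((∀ i, Even (v i)) ∨ (∀ i, Odd (v i))) ∧ ((∀ i, Even (w i)) ∨ (∀ i, Odd (w i))) ∧
     ((∃ i, (v i - w i = 2 ∨ w i - v i = 2) ∧ ∀ j, j ≠ i → v j = w j) ∨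
      (∀ i, v i - w i = 1 ∨ w i - v i = 1)))

/-- 4-cliques: vertices of the tessellation -/
def Tet (Q : Finset Pt) : Prop := Q.card = 4 ∧ ∀ v ∈ Q, ∀ w ∈ Q, v ≠ w → adj v w

/-- one step of a tricolor path: from a vertex of the tessellation to another one through a
tricolor edge. -/
def step (ω : Pt → Fin 3) (Q R : Finset Pt) : Prop :=
  Q.card = 4 ∧ R.card = 4 ∧ Q ≠ R ∧
     (∀ v ∈ Q, ∀ w ∈ Q, v ≠ w → adj v w) ∧ (∀ v ∈ R, ∀ w ∈ R, v ≠ w → adj v w) ∧
     (Q ∩ R).card = 3 ∧ ∀ c : Fin 3, ∃ v ∈ Q ∩ R, ω v = c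

lemma step.symm {ω : Pt → Fin 3} {Q R : Finset Pt} (h : step ω Q R) : step ω R Q := by
  obtain ⟨h1, h2, h3, h4, h5, h6, h7⟩ := h
  exact ⟨h2, h1, h3.symm, h5, h4, by rwa [Finset.inter_comm], by rwa [Finset.inter_comm]⟩

lemma adj_dist {v w : Pt} (h : adj v w) (i : Fin 3) : |v i - w i| ≤ 2 := by
  obtain ⟨-, -, h | h⟩ := h
  · obtain ⟨j, hj, hk⟩ := h
    by_cases hij : i = j
    · subst hij; rw [abs_le]; omega
    · rw [hk i hij]; simp
  · have := h i; rw [abs_le]; omega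

lemma step.congr {ω ω' : Pt → Fin 3} {Q R : Finset Pt} (h : step ω Q R)
    (hc : ∀ v ∈ Q ∩ R, ω v = ω' v) : step ω' Q R := by
  obtain ⟨h1, h2, h3, h4, h5, h6, h7⟩ := h
  refine ⟨h1, h2, h3, h4, h5, h6, fun c => ?_⟩
  obtain ⟨v, hv, hvc⟩ := h7 c
  exact ⟨v, hv, by rw [← hc v hv, hvc]⟩

/-- the Kuhn coordinates -/
def ph (a b c : ℤ) : Pt := ![-a + b + c, a - b + c, a + b - c]

@[simp] lemma ph0 (a b c : ℤ) : ph a b c 0 = -a + b + c := rfl
@[simp] lemma ph1 (a b c : ℤ) : ph a b c 1 = a - b + c := rfl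
@[simp] lemma ph2 (a b c : ℤ) : ph a b c 2 = a + b - c := rfl

lemma ph_inj {a b c a' b' c' : ℤ} (h : ph a b c = ph a' b' c') : a = a' ∧ b = b' ∧ c = c' := by
  have h0 := congrFun h 0
  have h1 := congrFun h 1
  have h2 := congrFun h 2
  simp only [ph0, ph1, ph2] at h0 h1 h2
  omega

lemma ph_parity (a b c : ℤ) : (∀ i, Even (ph a b c i)) ∨ (∀ i, Odd (ph a b c i)) := by
  rcases Int.even_or_odd (a + b + c) with h | h
  · left
    intro i
    fin_cases i
    · simp only [Fin.zero_eta, ph0]; obtain ⟨k, hk⟩ := h; exact ⟨k - a, by omega⟩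
    · simp only [Fin.mk_one, ph1]; obtain ⟨k, hk⟩ := h; exact ⟨k - b, by omega⟩
    · simp only [Fin.reduceFinMk, ph2]; obtain ⟨k, hk⟩ := h; exact ⟨k - c, by omega⟩
  · right
    intro i
    fin_cases i
    · simp only [Fin.zero_eta, ph0]; obtain ⟨k, hk⟩ := h; exact ⟨k - a, by omega⟩
    · simp only [Fin.mk_one, ph1]; obtain ⟨k, hk⟩ := h; exact ⟨k - b, by omega⟩
    · simp only [Fin.reduceFinMk, ph2]; obtain ⟨k, hk⟩ := h; exact ⟨k - c, by omega⟩

/-- adjacency in Kuhn coordinates -/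
lemma adj_ph {a b c a' b' c' : ℤ} (h : (a' - a = 0 ∨ a' - a = 1) ∧ (b' - b = 0 ∨ b' - b = 1) ∧
    (c' - c = 0 ∨ c' - c = 1)) (hne : ¬ (a' = a ∧ b' = b ∧ c' = c)) :
    adj (ph a b c) (ph a' b' c') := by
  refine ⟨ph_parity _ _ _, ph_parity _ _ _, ?_⟩
  obtain ⟨h1 | h1, h2 | h2, h3 | h3⟩ := h
  · exact absurd ⟨by omega, by omega, by omega⟩ hne
  · right; intro i; fin_cases i <;> simp <;> omega
  · right; intro i; fin_cases i <;> simp <;> omega
  · left; refine ⟨0, by simp; omega, ?_⟩; intro j hj; fin_cases j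
    · exact absurd rfl hj
    · simp; omega
    · simp; omega
  · right; intro i; fin_cases i <;> simp <;> omega
  · left; refine ⟨1, by simp; omega, ?_⟩; intro j hj; fin_cases j
    · simp; omega
    · exact absurd rfl hj
    · simp; omega
  · left; refine ⟨2, by simp; omega, ?_⟩; intro j hj; fin_cases j
    · simp; omega
    · simp; omega
    · exact absurd rfl hj
  · right; intro i; fin_cases i <;> simp <;> omega

lemma adj_symm {v w : Pt} (h : adj v w) : adj w v := by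
  obtain ⟨h1, h2, h | h⟩ := h
  · obtain ⟨j, hj, hk⟩ := h
    exact ⟨h2, h1, Or.inl ⟨j, hj.symm, fun i hi => (hk i hi).symm⟩⟩
  · exact ⟨h2, h1, Or.inr fun i => (h i).symm⟩

/-- four distinct mutually adjacent points form a tetrahedron -/
lemma tet_of_adj {p q r s : Pt} (h1 : adj p q) (h2 : adj p r) (h3 : adj p s) (h4 : adj q r)
    (h5 : adj q s) (h6 : adj r s) : Tet {p, q, r, s} := by
  have hne : ∀ {v w : Pt}, adj v w → v ≠ w := by
    rintro v w ⟨-, -, h | h⟩ rfl
    · obtain ⟨j, hj, -⟩ := h; omega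
    · have := h 0; omega
  have n1 := hne h1; have n2 := hne h2; have n3 := hne h3; have n4 := hne h4
  have n5 := hne h5; have n6 := hne h6
  refine ⟨?_, ?_⟩
  · rw [Finset.card_insert_of_notMem, Finset.card_insert_of_notMem, Finset.card_insert_of_notMem,
      Finset.card_singleton] <;> simp [*]
  · have s1 := adj_symm h1; have s2 := adj_symm h2; have s3 := adj_symm h3
    have s4 := adj_symm h4; have s5 := adj_symm h5; have s6 := adj_symm h6
    intro v hv w hw hvw
    simp only [Finset.mem_insert, Finset.mem_singleton] at hv hw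
    rcases hv with rfl | rfl | rfl | rfl <;> rcases hw with rfl | rfl | rfl | rfl <;>
      first | exact absurd rfl hvw | assumption

/-! ### colours -/

/-- antisymmetric lift of `b - a` -/
def th (a b : Fin 3) : ℤ := if a = b then 0 else if b = a + 1 then 1 else -1

/-- the current through a triangle -/
def jj (a b c : Fin 3) : ℤ := (th a b + th b c - th a c) / 3

lemma three_jj : ∀ a b c : Fin 3, 3 * jj a b c = th a b + th b c - th a c := by decide

lemma jj_of_not : ∀ a b c : Fin 3, jj a b c ≠ 0 → ∀ d, d = a ∨ d = b ∨ d = c := by decide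

lemma abs_jj : ∀ a b c : Fin 3, |jj a b c| ≤ 1 := by decide

lemma abs_th : ∀ a b : Fin 3, |th a b| ≤ 1 := by decide

lemma th_mod : ∀ a b : Fin 3, (3 : ℤ) ∣ th a b - ((b : ℕ) : ℤ) + ((a : ℕ) : ℤ) := by decide

lemma th_add : ∀ a b : Fin 3, th (a + 1) (b + 1) = th a b := by decide

lemma jj_add : ∀ a b c : Fin 3, jj (a + 1) (b + 1) (c + 1) = jj a b c := by decide

lemma jj_cocycle : ∀ a b c d : Fin 3, jj b c d - jj a c d + jj a b d - jj a b c = 0 := by decide

end Pool.Agent.R970.Tri
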