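import Mathlib

set_option autoImplicit false

/-! Efron–Stein inequality on finite products, in counting form. -/

namespace Pool.Agent.R970.Tri

open Finset Function

lemma sq_four (x y z w : ℝ) :
    (x - w) ^ 2 + (y - z) ^ 2 ≤ (x - y) ^ 2 + (z - w) ^ 2 + (x - z) ^ 2 + (y - w) ^ 2 := by
  nlinarith [sq_nonneg (x - y - z + w)]

/-- two-factor Efron–Stein -/
lemma prodVar {A B : Type*} [Fintype A] [Fintype B] (F : A → B → ℝ) :
    ∑ a, ∑ b, ∑ a', ∑ b', (F a b - F a' b') ^ 2 ≤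
      (Fintype.card B : ℝ) * ∑ b, ∑ a, ∑ a', (F a b - F a' b) ^ 2 +
      (Fintype.card A : ℝ) * ∑ a, ∑ b, ∑ b', (F a b - F a b') ^ 2 := by
  have h := Finset.sum_le_sum (s := (Finset.univ : Finset (A × B × A × B)))
    (fun p _ => sq_four (F p.1 p.2.1) (F p.2.2.1 p.2.1) (F p.1 p.2.2.2) (F p.2.2.1 p.2.2.2))
  simp only [Finset.sum_add_distrib, Fintype.sum_prod_type] at h
  have e1 : ∑ a : A, ∑ b : B, ∑ a' : A, ∑ b' : B, (F a' b - F a b') ^ 2 =
      ∑ a : A, ∑ b : B, ∑ a' : A, ∑ b' : B, (F a b - F a' b') ^ 2 := by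
    calc ∑ a : A, ∑ b : B, ∑ a' : A, ∑ b' : B, (F a' b - F a b') ^ 2 
        = ∑ b : B, ∑ a : A, ∑ a' : A, ∑ b' : B, (F a' b - F a b') ^ 2 := Finset.sum_comm
      _ = ∑ b : B, ∑ a' : A, ∑ a : A, ∑ b' : B, (F a' b - F a b') ^ 2 := by
          refine Finset.sum_congr rfl fun b _ => Finset.sum_comm
      _ = ∑ a : A, ∑ b : B, ∑ a' : A, ∑ b' : B, (F a b - F a' b') ^ 2 := Finset.sum_comm
  have e2 : ∑ a : A, ∑ b : B, ∑ a' : A, ∑ b' : B, (F a b - F a' b) ^ 2 =
      (Fintype.card B : ℝ) * ∑ b, ∑ a, ∑ a', (F a b - F a' b) ^ 2 := by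
    rw [Finset.sum_comm]
    simp only [Finset.sum_const, Finset.card_univ, nsmul_eq_mul, Finset.mul_sum]
  have e3 : ∑ a : A, ∑ b : B, ∑ a' : A, ∑ b' : B, (F a b' - F a' b') ^ 2 =
      (Fintype.card B : ℝ) * ∑ b, ∑ a, ∑ a', (F a b - F a' b) ^ 2 := by
    have : ∀ a : A, ∑ b : B, ∑ a' : A, ∑ b' : B, (F a b' - F a' b') ^ 2 =
        (Fintype.card B : ℝ) * ∑ b' : B, ∑ a' : A, (F a b' - F a' b') ^ 2 := by
      intro a
      rw [Finset.sum_const, Finset.card_univ, nsmul_eq_mul, Finset.sum_comm]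
    simp only [this]
    rw [← Finset.mul_sum, Finset.sum_comm]
  have e4 : ∑ a : A, ∑ b : B, ∑ a' : A, ∑ b' : B, (F a b - F a b') ^ 2 =
      (Fintype.card A : ℝ) * ∑ a, ∑ b, ∑ b', (F a b - F a b') ^ 2 := by
    simp only [Finset.sum_const, Finset.card_univ, nsmul_eq_mul, Finset.mul_sum]
  have e5 : ∑ a : A, ∑ b : B, ∑ a' : A, ∑ b' : B, (F a' b - F a' b') ^ 2 =
      (Fintype.card A : ℝ) * ∑ a, ∑ b, ∑ b', (F a b - F a b') ^ 2 := by
    rw [Finset.sum_const, Finset.card_univ, nsmul_eq_mul, Finset.sum_comm]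
  rw [e1, e2, e3, e4, e5] at h
  linarith

/-- the double sum of squared differences -/
noncomputable def DD {X : Type*} [Fintype X] (f : X → ℝ) : ℝ := ∑ c, ∑ c', (f c - f c') ^ 2

lemma DD_eq {X : Type*} [Fintype X] (f : X → ℝ) :
    DD f = 2 * (Fintype.card X : ℝ) * ∑ c, f c ^ 2 - 2 * (∑ c, f c) ^ 2 := by
  have : ∀ c c', (f c - f c') ^ 2 = f c ^ 2 + f c' ^ 2 - 2 * f c * f c' := by intros; ring
  simp only [DD, this, Finset.sum_sub_distrib, Finset.sum_add_distrib, Finset.sum_const,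
    Finset.card_univ, nsmul_eq_mul, ← Finset.mul_sum]
  rw [← Finset.sum_mul, ← Finset.mul_sum]
  ring

lemma ES_fin {α : Type*} [Fintype α] (n : ℕ) (f : (Fin n → α) → ℝ) :
    (Fintype.card α : ℝ) * DD f ≤ (Fintype.card α : ℝ) ^ n *
      ∑ i, ∑ c, ∑ g, (f c - f (update c i g)) ^ 2 := by
  classical
  induction n with
  | zero =>
    have : DD f = 0 := by
      unfold DD
      refine Finset.sum_eq_zero fun c _ => Finset.sum_eq_zero fun c' _ => ?_
      rw [Subsingleton.elim c c']; simp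
    simp [this]
  | succ n ih =>
    have hp := prodVar (fun (g : α) (c : Fin n → α) => f (Fin.cons g c))
    have hsum : ∀ (G : (Fin (n+1) → α) → ℝ), ∑ c, G c = ∑ g : α, ∑ c : Fin n → α, G (Fin.cons g c) := by
      intro G
      rw [← (Fin.consEquiv (fun _ : Fin (n+1) => α)).sum_comp, Fintype.sum_prod_type]
      rfl
    have h1 : DD f = ∑ a : α, ∑ b : Fin n → α, ∑ a' : α, ∑ b' : Fin n → α,
        (f (Fin.cons a b) - f (Fin.cons a' b')) ^ 2 := by
      unfold DD
      rw [hsum]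
      refine Finset.sum_congr rfl fun a _ => Finset.sum_congr rfl fun b _ => ?_
      rw [hsum]
    have h2 : ∑ i : Fin (n+1), ∑ c, ∑ g, (f c - f (update c i g)) ^ 2 =
        ∑ b : Fin n → α, ∑ a : α, ∑ a' : α, (f (Fin.cons a b) - f (Fin.cons a' b)) ^ 2 +
        ∑ g : α, ∑ i : Fin n, ∑ c : Fin n → α, ∑ g' : α,
          (f (Fin.cons g c) - f (Fin.cons g (update c i g'))) ^ 2 := by
      rw [Fin.sum_univ_succ]
      congr 1
      · rw [hsum, Finset.sum_comm]
        refine Finset.sum_congr rfl fun b _ => Finset.sum_congr rfl fun a _ => 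
          Finset.sum_congr rfl fun a' _ => ?_
        rw [Fin.update_cons_zero]
      · rw [Finset.sum_comm (s := (Finset.univ : Finset α))]
        refine Finset.sum_congr rfl fun i _ => ?_
        rw [hsum]
        refine Finset.sum_congr rfl fun b _ => Finset.sum_congr rfl fun a _ => 
          Finset.sum_congr rfl fun a' _ => ?_
        rw [Fin.cons_update]
    rw [h1, h2]
    have hcard : (Fintype.card (Fin n → α) : ℝ) = (Fintype.card α : ℝ) ^ n := by
      simp [Fintype.card_fun]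
    rw [hcard] at hp
    have hα : (0 : ℝ) ≤ (Fintype.card α : ℝ) := by positivity
    have h3 : (Fintype.card α : ℝ) * ∑ a : α, ∑ b : Fin n → α, ∑ b' : Fin n → α,
        (f (Fin.cons a b) - f (Fin.cons a b')) ^ 2 ≤ (Fintype.card α : ℝ) ^ n * 
        ∑ g : α, ∑ i : Fin n, ∑ c : Fin n → α, ∑ g' : α,
          (f (Fin.cons g c) - f (Fin.cons g (update c i g'))) ^ 2 := by
      rw [Finset.mul_sum, Finset.mul_sum]
      refine Finset.sum_le_sum fun a _ => ?_
      exact ih (fun c => f (Fin.cons a c))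
    calc (Fintype.card α : ℝ) * ∑ a : α, ∑ b : Fin n → α, ∑ a' : α, ∑ b' : Fin n → α,
          (f (Fin.cons a b) - f (Fin.cons a' b')) ^ 2 
        ≤ (Fintype.card α : ℝ) * ((Fintype.card α : ℝ) ^ n * ∑ b : Fin n → α, ∑ a : α, ∑ a' : α, 
            (f (Fin.cons a b) - f (Fin.cons a' b)) ^ 2 + 
            (Fintype.card α : ℝ) * ∑ a : α, ∑ b : Fin n → α, ∑ b' : Fin n → α,
              (f (Fin.cons a b) - f (Fin.cons a b')) ^ 2) := by
          exact mul_le_mul_of_nonneg_left hp hα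
      _ ≤ (Fintype.card α : ℝ) * ((Fintype.card α : ℝ) ^ n * ∑ b : Fin n → α, ∑ a : α, ∑ a' : α, 
            (f (Fin.cons a b) - f (Fin.cons a' b)) ^ 2 + (Fintype.card α : ℝ) ^ n * 
        ∑ g : α, ∑ i : Fin n, ∑ c : Fin n → α, ∑ g' : α,
          (f (Fin.cons g c) - f (Fin.cons g (update c i g'))) ^ 2) := by
          gcongr
      _ = _ := by rw [pow_succ]; ring

lemma ES {ι α : Type*} [Fintype ι] [DecidableEq ι] [Fintype α] (f : (ι → α) → ℝ) :
    (Fintype.card α : ℝ) * DD f ≤ (Fintype.card α : ℝ) ^ (Fintype.card ι) *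
      ∑ i, ∑ c, ∑ g, (f c - f (update c i g)) ^ 2 := by
  classical
  let e := Fintype.equivFin ι
  let E : (ι → α) ≃ (Fin (Fintype.card ι) → α) := e.arrowCongr (Equiv.refl α)
  have h := ES_fin (Fintype.card ι) (fun c => f (E.symm c))
  have h1 : DD (fun c => f (E.symm c)) = DD f := by
    unfold DD
    rw [← E.sum_comp]
    refine Finset.sum_congr rfl fun c _ => ?_
    rw [← E.sum_comp]
    simp
  rw [h1] at h
  refine h.trans (le_of_eq ?_)
  congr 1
  rw [← e.sum_comp]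
  refine Finset.sum_congr rfl fun i _ => ?_
  rw [← E.sum_comp]
  refine Finset.sum_congr rfl fun c _ => Finset.sum_congr rfl fun g _ => ?_
  have : E.symm (update (E c) (e i) g) = update c i g := by
    ext j
    simp only [E, Equiv.arrowCongr_symm, Equiv.arrowCongr_apply, Equiv.refl_symm, Equiv.coe_refl, Equiv.symm_symm,
      Function.comp]
    by_cases hj : j = i
    · subst hj; simp
    · have : e j ≠ e i := fun h => hj (e.injective h)
      simp [Function.update_of_ne this, Function.update_of_ne hj]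
  rw [this]
  simp

end Pool.Agent.R970.Tri
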