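import Pool.Agent.R970.Tri.Cross

set_option autoImplicit false

/-! Polynomial lower bound and the conclusion. -/

namespace Pool.Agent.R970.Tri

open Finset Function Relation MeasureTheory ProbabilityTheory Filter Topology

lemma q_le_one (n : ℕ) : q n ≤ 1 := prob_le_one

lemma main_ineq {n : ℕ} (hn : 1 ≤ n) :
    (1 : ℝ) ≤ 10 ^ 8 / n + 10 ^ 6 * (n : ℝ) ^ 22 * (q n).toReal := by
  obtain ⟨N, hN⟩ : ∃ N : ℕ, N + 1 = 10 * n ^ 5 := ⟨10 * n ^ 5 - 1, by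
    have : 1 ≤ n ^ 5 := Nat.one_le_pow _ _ hn
    omega⟩
  have hn5 : n ≤ n ^ 5 := Nat.le_self_pow (by norm_num) n
  have h1 := main_slab (N := N) (K := 3 * n + 1) (r := 3 * n) (by omega) (by omega) (by omega)
  have hnR : (1 : ℝ) ≤ n := by exact_mod_cast hn
  have hNR : ((N : ℝ) + 1) = 10 * (n : ℝ) ^ 5 := by exact_mod_cast hN
  -- card
  have hcard : ((box N (3 * n + 1)).card : ℝ) ≤ 500 * (n : ℝ) ^ 11 := by
    rw [card_box]
    push_cast
    rw [hNR]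
    have : (3 * (n : ℝ) + 1 + 1) ≤ 5 * n := by linarith
    calc 10 * (n : ℝ) ^ 5 * (10 * (n : ℝ) ^ 5 * (3 * (n : ℝ) + 1 + 1)) 
        ≤ 10 * (n : ℝ) ^ 5 * (10 * (n : ℝ) ^ 5 * (5 * n)) := by gcongr
      _ = 500 * (n : ℝ) ^ 11 := by ring
  have hcard0 : (1 : ℝ) ≤ ((box N (3 * n + 1)).card : ℝ) := by
    rw [card_box]
    push_cast
    have h2 : (1 : ℝ) ≤ (N : ℝ) + 1 := by
      have : (0 : ℝ) ≤ N := Nat.cast_nonneg N
      linarith
    have h3 : (1 : ℝ) ≤ 3 * (n : ℝ) + 1 + 1 := by linarith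
    exact one_le_mul_of_one_le_of_one_le h2 (one_le_mul_of_one_le_of_one_le h2 h3)
  -- eps
  have heps0 : 0 ≤ eps N (3 * n + 1) (3 * n) := by unfold eps; positivity
  have heps : eps N (3 * n + 1) (3 * n) ≤ 361 / (n : ℝ) ^ 6 := by
    unfold eps
    rw [hNR]
    push_cast
    have hpi : Real.pi < 3.15 := Real.pi_lt_d2
    have e1 : (2 * (3 * (n : ℝ)) + 1) ≤ 7 * n := by linarith
    have e2 : (2 * (6 * (3 * (n : ℝ) + 1) + 1)) ≤ 50 * n := by linarith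
    have e3 : 2 * Real.pi / 3 ≤ 2.1 := by linarith
    have e4 : 2 * Real.pi / 3 * ((2 * (3 * (n : ℝ)) + 1) ^ 3 * (2 * (6 * (3 * (n : ℝ) + 1) + 1))) ≤ 
        2.1 * ((7 * n) ^ 3 * (50 * n)) := by gcongr
    have hnp : (0 : ℝ) < (n : ℝ) ^ 6 := by positivity
    have hnp' : (0 : ℝ) < (10 * (n : ℝ) ^ 5) ^ 2 := by positivity
    rw [div_le_div_iff₀ hnp' hnp]
    calc _ ≤ 2.1 * ((7 * (n : ℝ)) ^ 3 * (50 * n)) * (n : ℝ) ^ 6 := by gcongr
      _ = 36015 * (n : ℝ) ^ 10 := by ring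
      _ ≤ 36100 * (n : ℝ) ^ 10 := by gcongr; norm_num
      _ = _ := by ring
  have heps2 : eps N (3 * n + 1) (3 * n) ^ 2 ≤ (361 / (n : ℝ) ^ 6) ^ 2 := by gcongr
  have hA : ((box N (3 * n + 1)).card : ℝ) * eps N (3 * n + 1) (3 * n) ^ 2 ≤ 10 ^ 8 / n := by
    calc _ ≤ (500 * (n : ℝ) ^ 11) * (361 / (n : ℝ) ^ 6) ^ 2 := by gcongr
      _ = 65160500 / n := by field_simp; norm_num
      _ ≤ 10 ^ 8 / n := by gcongr; norm_num
  have hbad : (mu {ω | ¬ Good N (3 * n + 1) (3 * n) ω}).toReal ≤ 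
      ((box N (3 * n + 1)).card : ℝ) * (q n).toReal := by
    have := ENNReal.toReal_mono (ENNReal.mul_ne_top (ENNReal.natCast_ne_top _) 
      (ne_top_of_le_ne_top ENNReal.one_ne_top (q_le_one n))) (bad_le (N := N) (K := 3 * n + 1) hn)
    rw [ENNReal.toReal_mul, ENNReal.toReal_natCast] at this
    exact this
  have hq0 : 0 ≤ (q n).toReal := ENNReal.toReal_nonneg
  have hB : (((box N (3 * n + 1)).card : ℝ) + 1) * (mu {ω | ¬ Good N (3 * n + 1) (3 * n) ω}).toReal ≤ 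
      10 ^ 6 * (n : ℝ) ^ 22 * (q n).toReal := by
    calc _ ≤ (((box N (3 * n + 1)).card : ℝ) + 1) * (((box N (3 * n + 1)).card : ℝ) * (q n).toReal) := by
            gcongr
      _ ≤ (2 * (500 * (n : ℝ) ^ 11)) * ((500 * (n : ℝ) ^ 11) * (q n).toReal) := by
            gcongr
            linarith
      _ = 500000 * (n : ℝ) ^ 22 * (q n).toReal := by ring
      _ ≤ 10 ^ 6 * (n : ℝ) ^ 22 * (q n).toReal := by gcongr; norm_num
  linarith

lemma q_decay {n : ℕ} (hn : 1 ≤ n) (h : (C0 : ℝ) * (q n).toReal ≤ 1 / 2) (k : ℕ) :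
    (C0 : ℝ) * (q (16 ^ k * n)).toReal ≤ (1 / 2) ^ (2 ^ k) := by
  induction k with
  | zero => simpa using h
  | succ k ih =>
    have hk : 1 ≤ 16 ^ k * n := Nat.one_le_iff_ne_zero.2 (by positivity)
    have h1 := q_rec hk
    have h2 : (q (16 * (16 ^ k * n))).toReal ≤ (C0 : ℝ) * ((q (16 ^ k * n)).toReal * (q (16 ^ k * n)).toReal) := by
      have hne : ∀ m, q m ≠ ⊤ := fun m => ne_top_of_le_ne_top ENNReal.one_ne_top (q_le_one m)
      have := ENNReal.toReal_mono (ENNReal.mul_ne_top (ENNReal.natCast_ne_top _) 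
        (ENNReal.mul_ne_top (hne _) (hne _))) h1
      rw [ENNReal.toReal_mul, ENNReal.toReal_natCast, ENNReal.toReal_mul] at this
      exact this
    have e : 16 ^ (k + 1) * n = 16 * (16 ^ k * n) := by ring
    rw [e]
    have hC : (0 : ℝ) ≤ C0 := Nat.cast_nonneg _
    calc (C0 : ℝ) * (q (16 * (16 ^ k * n))).toReal ≤ 
          (C0 : ℝ) * ((C0 : ℝ) * ((q (16 ^ k * n)).toReal * (q (16 ^ k * n)).toReal)) := by gcongr
      _ = ((C0 : ℝ) * (q (16 ^ k * n)).toReal) ^ 2 := by ring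
      _ ≤ ((1 / 2) ^ (2 ^ k)) ^ 2 := by gcongr
      _ = (1 / 2) ^ (2 ^ (k + 1)) := by rw [← pow_mul, pow_succ]

/-- crossing probabilities are bounded below at every scale -/
theorem q_lower {n : ℕ} (hn : 1 ≤ n) : 1 / (2 * (C0 : ℝ)) < (q n).toReal := by
  by_contra hcon
  push Not at hcon
  have hC : (1 : ℝ) ≤ C0 := by
    have : 1 ≤ C0 := by unfold C0; norm_num
    exact_mod_cast this
  have hC0 : (0 : ℝ) < C0 := by linarith
  have h : (C0 : ℝ) * (q n).toReal ≤ 1 / 2 := by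
    calc (C0 : ℝ) * (q n).toReal ≤ (C0 : ℝ) * (1 / (2 * (C0 : ℝ))) := by gcongr
      _ = 1 / 2 := by field_simp
  have hnR : (1 : ℝ) ≤ n := by exact_mod_cast hn
  have hn0 : (n : ℝ) ≠ 0 := by linarith
  have key : ∀ k : ℕ, (1 : ℝ) ≤ 10 ^ 8 * (1 / 16) ^ k + 
      10 ^ 6 * (n : ℝ) ^ 22 * (((2 ^ k : ℕ) : ℝ) ^ 88 * (1 / 2) ^ (2 ^ k)) := by
    intro k
    have hk : 1 ≤ 16 ^ k * n := Nat.one_le_iff_ne_zero.2 (by positivity)
    have h1 := main_ineq hk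
    have h2 := q_decay hn h k
    have h3 : (q (16 ^ k * n)).toReal ≤ (1 / 2) ^ (2 ^ k) := by
      have h0 : 0 ≤ (q (16 ^ k * n)).toReal := ENNReal.toReal_nonneg
      have : (q (16 ^ k * n)).toReal ≤ (C0 : ℝ) * (q (16 ^ k * n)).toReal := 
        le_mul_of_one_le_left h0 hC
      exact this.trans h2
    refine h1.trans ?_
    push_cast
    have e1 : (10 : ℝ) ^ 8 / (16 ^ k * n) ≤ 10 ^ 8 * (1 / 16) ^ k := by
      rw [one_div, inv_pow, ← div_eq_mul_inv]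
      apply div_le_div_of_nonneg_left (by positivity) (by positivity)
      exact le_mul_of_one_le_right (by positivity) hnR
    have e2 : (10 : ℝ) ^ 6 * (16 ^ k * (n : ℝ)) ^ 22 * (q (16 ^ k * n)).toReal ≤ 
        10 ^ 6 * (n : ℝ) ^ 22 * (((2 : ℝ) ^ k) ^ 88 * (1 / 2) ^ (2 ^ k)) := by
      have e3 : ((16 : ℝ) ^ k) ^ 22 = ((2 : ℝ) ^ k) ^ 88 := by
        rw [← pow_mul, ← pow_mul, show (16 : ℝ) = 2 ^ 4 by norm_num, ← pow_mul]
        congr 1
        ring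
      calc _ ≤ (10 : ℝ) ^ 6 * (16 ^ k * (n : ℝ)) ^ 22 * (1 / 2) ^ (2 ^ k) := by gcongr
        _ = _ := by rw [mul_pow, e3]; ring
    linarith
  have t1 : Tendsto (fun k : ℕ => (10 : ℝ) ^ 8 * (1 / 16) ^ k) atTop (𝓝 0) := by
    have := (tendsto_pow_atTop_nhds_zero_of_lt_one (r := (1 / 16 : ℝ)) (by norm_num) 
      (by norm_num)).const_mul ((10 : ℝ) ^ 8)
    simpa using this
  have t2 : Tendsto (fun k : ℕ => 10 ^ 6 * (n : ℝ) ^ 22 * (((2 ^ k : ℕ) : ℝ) ^ 88 * (1 / 2) ^ (2 ^ k))) 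
      atTop (𝓝 0) := by
    have h1 := tendsto_pow_const_mul_const_pow_of_abs_lt_one 88 (r := (1 / 2 : ℝ)) 
      (by rw [abs_of_pos] <;> norm_num)
    have h2 : Tendsto (fun k : ℕ => 2 ^ k) atTop atTop := tendsto_pow_atTop_atTop_of_one_lt (by norm_num)
    have h3 := (h1.comp h2).const_mul ((10 : ℝ) ^ 6 * (n : ℝ) ^ 22)
    rw [mul_zero] at h3
    exact h3
  have t3 := t1.add t2
  rw [add_zero] at t3
  have := ge_of_tendsto' t3 key
  linarith

end Pool.Agent.R970.Tri
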