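import Pool.Agent.R970.Tri.Defs

set_option autoImplicit false

/-! The deterministic part: the corrected height function on the bottom plane of a slab. -/

namespace Pool.Agent.R970.Tri

open Finset Function Relation

/-- the slab, as a finite set of points -/
def box (N K : ℕ) : Finset Pt :=
  ((range (N+1)) ×ˢ ((range (N+1)) ×ˢ (range (K+1)))).image
    (fun p => ph (p.1 : ℤ) (p.2.1 : ℤ) (p.2.2 : ℤ))

lemma mem_box {N K : ℕ} {v : Pt} : v ∈ box N K ↔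
    ∃ a b c : ℕ, a ≤ N ∧ b ≤ N ∧ c ≤ K ∧ ph a b c = v := by
  simp only [box, Finset.mem_image, Finset.mem_product, Finset.mem_range, Prod.exists]
  constructor
  · rintro ⟨a, b, c, ⟨h1, h2, h3⟩, h⟩
    exact ⟨a, b, c, by omega, by omega, by omega, h⟩
  · rintro ⟨a, b, c, h1, h2, h3, h⟩
    exact ⟨a, b, c, ⟨by omega, by omega, by omega⟩, h⟩

lemma ph_mem_box {N K a b c : ℕ} (ha : a ≤ N) (hb : b ≤ N) (hc : c ≤ K) :
    ph a b c ∈ box N K := mem_box.2 ⟨a, b, c, ha, hb, hc, rfl⟩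

lemma card_box (N K : ℕ) : (box N K).card = (N+1) * ((N+1) * (K+1)) := by
  rw [box, Finset.card_image_of_injective, Finset.card_product, Finset.card_product]
  · simp
  · rintro ⟨a, b, c⟩ ⟨a', b', c'⟩ h
    obtain ⟨h1, h2, h3⟩ := ph_inj h
    simp only [Nat.cast_inj] at h1 h2 h3
    simp [h1, h2, h3]

/-- steps inside the slab -/
def stepI (N K : ℕ) (ω : Pt → Fin 3) (Q R : Finset Pt) : Prop :=
  step ω Q R ∧ Q ⊆ box N K ∧ R ⊆ box N K

/-- connection inside the slab -/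
def Conn (N K : ℕ) (ω : Pt → Fin 3) (Q R : Finset Pt) : Prop := ReflTransGen (stepI N K ω) Q R

/-- tetrahedra of the slab connected to the bottom -/
def Comp (N K : ℕ) (ω : Pt → Fin 3) (Q : Finset Pt) : Prop :=
  ∃ Q0, Tet Q0 ∧ Q0 ⊆ box N K ∧ (∃ a b : ℤ, ph a b 0 ∈ Q0) ∧ Conn N K ω Q0 Q

/-- all tricolor connections in the slab have diameter at most `r` -/
def Good (N K r : ℕ) (ω : Pt → Fin 3) : Prop :=
  ∀ Q Q', Tet Q → Q ⊆ box N K → Conn N K ω Q Q' → ∀ v ∈ Q, ∀ w ∈ Q', ∀ i, |v i - w i| ≤ (r : ℤ)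

variable {N K r : ℕ} {ω ω' : Pt → Fin 3}

lemma Conn.tet {Q R : Finset Pt} (h : Conn N K ω Q R) (hQ : Tet Q ∧ Q ⊆ box N K) :
    Tet R ∧ R ⊆ box N K := by
  induction h with
  | refl => exact hQ
  | tail _ h2 _ =>
    obtain ⟨⟨h1, h2, h3, h4, h5, h6, h7⟩, h8, h9⟩ := h2
    exact ⟨⟨h2, h5⟩, h9⟩

lemma Comp.tet {Q : Finset Pt} (h : Comp N K ω Q) : Tet Q ∧ Q ⊆ box N K := by
  obtain ⟨Q0, h1, h2, -, h3⟩ := h
  exact h3.tet ⟨h1, h2⟩

open Classical in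
/-- the current carried by the tricolor triangles connected to the bottom -/
noncomputable def W (N K : ℕ) (ω : Pt → Fin 3) (p q s : Pt) : ℤ :=
  if ∃ Q, Comp N K ω Q ∧ p ∈ Q ∧ q ∈ Q ∧ s ∈ Q then jj (ω p) (ω q) (ω s) else 0

lemma abs_W (p q s : Pt) : |W N K ω p q s| ≤ 1 := by
  unfold W
  split_ifs
  · exact abs_jj _ _ _
  · simp

lemma W_of_comp {Q : Finset Pt} (hQ : Comp N K ω Q) {p q s : Pt} (hp : p ∈ Q) (hq : q ∈ Q)
    (hs : s ∈ Q) : W N K ω p q s = jj (ω p) (ω q) (ω s) := by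
  unfold W
  rw [if_pos ⟨Q, hQ, hp, hq, hs⟩]

lemma W_of_not_comp {T : Finset Pt} (hT : Tet T) (hTb : T ⊆ box N K) (hc : ¬ Comp N K ω T)
    {p q s : Pt} (hp : p ∈ T) (hq : q ∈ T) (hs : s ∈ T) (h1 : p ≠ q) (h2 : p ≠ s) (h3 : q ≠ s) :
    W N K ω p q s = 0 := by
  unfold W
  split_ifs with h
  · obtain ⟨Q, hQ, hpQ, hqQ, hsQ⟩ := h
    by_contra hne
    apply hc
    have hQt := hQ.tet
    have hQT : Q ≠ T := by rintro rfl; exact hc hQ
    have hsub : ({p, q, s} : Finset Pt) ⊆ Q ∩ T := by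
      intro v hv
      simp only [Finset.mem_insert, Finset.mem_singleton] at hv
      rw [Finset.mem_inter]
      rcases hv with rfl | rfl | rfl
      · exact ⟨hpQ, hp⟩
      · exact ⟨hqQ, hq⟩
      · exact ⟨hsQ, hs⟩
    have hc3 : ({p, q, s} : Finset Pt).card = 3 := by
      rw [Finset.card_insert_of_notMem, Finset.card_insert_of_notMem, Finset.card_singleton]
      · simp [h3]
      · simp [h1, h2]
    have hge : 3 ≤ (Q ∩ T).card := hc3.symm.le.trans (Finset.card_le_card hsub)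
    have hle : (Q ∩ T).card ≤ 4 := 
      (Finset.card_le_card Finset.inter_subset_left).trans hQt.1.1.le
    have hne4 : (Q ∩ T).card ≠ 4 := by
      intro h4
      have e1 : Q ∩ T = Q := Finset.eq_of_subset_of_card_le Finset.inter_subset_left
        (by rw [h4, hQt.1.1])
      have e2 : Q ∩ T = T := Finset.eq_of_subset_of_card_le Finset.inter_subset_right
        (by rw [h4, hT.1])
      exact hQT (e1.symm.trans e2)
    have hst : step ω Q T := by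
      refine ⟨hQt.1.1, hT.1, hQT, hQt.1.2, hT.2, by omega, fun c => ?_⟩
      rcases jj_of_not _ _ _ hne c with rfl | rfl | rfl
      · exact ⟨p, hsub (by simp), rfl⟩
      · exact ⟨q, hsub (by simp), rfl⟩
      · exact ⟨s, hsub (by simp), rfl⟩
    obtain ⟨Q0, a1, a2, a3, a4⟩ := hQ
    exact ⟨Q0, a1, a2, a3, a4.tail ⟨hst, hQt.2, hTb⟩⟩
  · rfl

/-- the current is closed -/
lemma W_closed {p q s t : Pt} (hT : Tet {p, q, s, t}) (hb : ({p, q, s, t} : Finset Pt) ⊆ box N K)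
    (h1 : p ≠ q) (h2 : p ≠ s) (h3 : p ≠ t) (h4 : q ≠ s) (h5 : q ≠ t) (h6 : s ≠ t) :
    W N K ω q s t - W N K ω p s t + W N K ω p q t - W N K ω p q s = 0 := by
  by_cases hc : Comp N K ω {p, q, s, t}
  · rw [W_of_comp hc (by simp) (by simp) (by simp), W_of_comp hc (by simp) (by simp) (by simp),
      W_of_comp hc (by simp) (by simp) (by simp), W_of_comp hc (by simp) (by simp) (by simp)]
    exact jj_cocycle _ _ _ _
  · rw [W_of_not_comp hT hb hc (by simp) (by simp) (by simp) h4 h5 h6,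
      W_of_not_comp hT hb hc (by simp) (by simp) (by simp) h2 h3 h6,
      W_of_not_comp hT hb hc (by simp) (by simp) (by simp) h1 h3 h5,
      W_of_not_comp hT hb hc (by simp) (by simp) (by simp) h1 h2 h4]
    simp

/-- increasing steps in Kuhn coordinates with increments in `{0,1}` -/
def Inc (a b c a' b' c' : ℕ) : Prop :=
  ((a' = a ∨ a' = a + 1) ∧ (b' = b ∨ b' = b + 1) ∧ (c' = c ∨ c' = c + 1)) ∧
    ¬ (a' = a ∧ b' = b ∧ c' = c)

lemma Inc.adj {a b c a' b' c' : ℕ} (h : Inc a b c a' b' c') : adj (ph a b c) (ph a' b' c') := by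
  unfold Inc at h
  exact adj_ph (by omega) (by omega)

lemma Inc.ne {a b c a' b' c' : ℕ} (h : Inc a b c a' b' c') : ph a b c ≠ ph a' b' c' := by
  intro h'
  obtain ⟨e1, e2, e3⟩ := ph_inj h'
  unfold Inc at h
  omega

lemma Inc.le {a b c a' b' c' : ℕ} (h : Inc a b c a' b' c') : a ≤ a' ∧ b ≤ b' ∧ c ≤ c' := by
  unfold Inc at h
  omega

lemma W_closed_ph {a0 b0 c0 a1 b1 c1 a2 b2 c2 a3 b3 c3 : ℕ}
    (h01 : Inc a0 b0 c0 a1 b1 c1) (h02 : Inc a0 b0 c0 a2 b2 c2) (h03 : Inc a0 b0 c0 a3 b3 c3)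
    (h12 : Inc a1 b1 c1 a2 b2 c2) (h13 : Inc a1 b1 c1 a3 b3 c3) (h23 : Inc a2 b2 c2 a3 b3 c3)
    (ha : a3 ≤ N) (hb : b3 ≤ N) (hc : c3 ≤ K) :
    W N K ω (ph a1 b1 c1) (ph a2 b2 c2) (ph a3 b3 c3) -
      W N K ω (ph a0 b0 c0) (ph a2 b2 c2) (ph a3 b3 c3) +
      W N K ω (ph a0 b0 c0) (ph a1 b1 c1) (ph a3 b3 c3) -
      W N K ω (ph a0 b0 c0) (ph a1 b1 c1) (ph a2 b2 c2) = 0 := by
  refine W_closed (tet_of_adj h01.adj h02.adj h03.adj h12.adj h13.adj h23.adj) ?_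
    h01.ne h02.ne h03.ne h12.ne h13.ne h23.ne
  intro v hv
  simp only [Finset.mem_insert, Finset.mem_singleton] at hv
  rcases hv with rfl | rfl | rfl | rfl
  · exact ph_mem_box (h03.le.1.trans ha) (h03.le.2.1.trans hb) (h03.le.2.2.trans hc)
  · exact ph_mem_box (h13.le.1.trans ha) (h13.le.2.1.trans hb) (h13.le.2.2.trans hc)
  · exact ph_mem_box (h23.le.1.trans ha) (h23.le.2.1.trans hb) (h23.le.2.2.trans hc)
  · exact ph_mem_box ha hb hc

/-- flux through the unit squares -/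
noncomputable def S12 (N K : ℕ) (ω : Pt → Fin 3) (a b c : ℕ) : ℤ :=
  W N K ω (ph a b c) (ph (a+1 : ℕ) b c) (ph (a+1 : ℕ) (b+1 : ℕ) c) -
  W N K ω (ph a b c) (ph a (b+1 : ℕ) c) (ph (a+1 : ℕ) (b+1 : ℕ) c)
noncomputable def S13 (N K : ℕ) (ω : Pt → Fin 3) (a b c : ℕ) : ℤ :=
  W N K ω (ph a b c) (ph (a+1 : ℕ) b c) (ph (a+1 : ℕ) b (c+1 : ℕ)) -
  W N K ω (ph a b c) (ph a b (c+1 : ℕ)) (ph (a+1 : ℕ) b (c+1 : ℕ))
noncomputable def S23 (N K : ℕ) (ω : Pt → Fin 3) (a b c : ℕ) : ℤ :=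
  W N K ω (ph a b c) (ph a (b+1 : ℕ) c) (ph a (b+1 : ℕ) (c+1 : ℕ)) -
  W N K ω (ph a b c) (ph a b (c+1 : ℕ)) (ph a (b+1 : ℕ) (c+1 : ℕ))

lemma cube_rel {a b c : ℕ} (ha : a < N) (hb : b < N) (hc : c < K) :
    S12 N K ω a b c - S12 N K ω a b (c+1) =
      S13 N K ω a b c - S13 N K ω a (b+1) c + S23 N K ω (a+1) b c - S23 N K ω a b c := by
  have r123 := W_closed_ph (N := N) (K := K) (ω := ω) (a0 := a) (b0 := b) (c0 := c)
    (a1 := a+1) (b1 := b) (c1 := c) (a2 := a+1) (b2 := b+1) (c2 := c)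
    (a3 := a+1) (b3 := b+1) (c3 := c+1) (by unfold Inc; omega) (by unfold Inc; omega) (by unfold Inc; omega)
    (by unfold Inc; omega) (by unfold Inc; omega) (by unfold Inc; omega)
    (by omega) (by omega) (by omega)
  have r132 := W_closed_ph (N := N) (K := K) (ω := ω) (a0 := a) (b0 := b) (c0 := c)
    (a1 := a+1) (b1 := b) (c1 := c) (a2 := a+1) (b2 := b) (c2 := c+1)
    (a3 := a+1) (b3 := b+1) (c3 := c+1) (by unfold Inc; omega) (by unfold Inc; omega) (by unfold Inc; omega)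
    (by unfold Inc; omega) (by unfold Inc; omega) (by unfold Inc; omega)
    (by omega) (by omega) (by omega)
  have r213 := W_closed_ph (N := N) (K := K) (ω := ω) (a0 := a) (b0 := b) (c0 := c)
    (a1 := a) (b1 := b+1) (c1 := c) (a2 := a+1) (b2 := b+1) (c2 := c)
    (a3 := a+1) (b3 := b+1) (c3 := c+1) (by unfold Inc; omega) (by unfold Inc; omega) (by unfold Inc; omega)
    (by unfold Inc; omega) (by unfold Inc; omega) (by unfold Inc; omega)
    (by omega) (by omega) (by omega)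
  have r231 := W_closed_ph (N := N) (K := K) (ω := ω) (a0 := a) (b0 := b) (c0 := c)
    (a1 := a) (b1 := b+1) (c1 := c) (a2 := a) (b2 := b+1) (c2 := c+1)
    (a3 := a+1) (b3 := b+1) (c3 := c+1) (by unfold Inc; omega) (by unfold Inc; omega) (by unfold Inc; omega)
    (by unfold Inc; omega) (by unfold Inc; omega) (by unfold Inc; omega)
    (by omega) (by omega) (by omega)
  have r312 := W_closed_ph (N := N) (K := K) (ω := ω) (a0 := a) (b0 := b) (c0 := c)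
    (a1 := a) (b1 := b) (c1 := c+1) (a2 := a+1) (b2 := b) (c2 := c+1)
    (a3 := a+1) (b3 := b+1) (c3 := c+1) (by unfold Inc; omega) (by unfold Inc; omega) (by unfold Inc; omega)
    (by unfold Inc; omega) (by unfold Inc; omega) (by unfold Inc; omega)
    (by omega) (by omega) (by omega)
  have r321 := W_closed_ph (N := N) (K := K) (ω := ω) (a0 := a) (b0 := b) (c0 := c)
    (a1 := a) (b1 := b) (c1 := c+1) (a2 := a) (b2 := b+1) (c2 := c+1)
    (a3 := a+1) (b3 := b+1) (c3 := c+1) (by unfold Inc; omega) (by unfold Inc; omega) (by unfold Inc; omega)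
    (by unfold Inc; omega) (by unfold Inc; omega) (by unfold Inc; omega)
    (by omega) (by omega) (by omega)
  unfold S12 S13 S23
  linarith

lemma Comp.close (hG : Good N K r ω) {Q : Finset Pt} (hQ : Comp N K ω Q) {a b c : ℤ}
    (h : ph a b c ∈ Q) : c ≤ r := by
  obtain ⟨Q0, h1, h2, ⟨a', b', h3⟩, h4⟩ := hQ
  have := hG Q0 Q h1 h2 h4 _ h3 _ h
  have h0 := this 0
  have h1 := this 1
  rw [abs_le] at h0 h1
  simp only [ph0, ph1] at h0 h1
  omega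

lemma S12_top (hG : Good N K r ω) (hK : r < K) (a b : ℕ) : S12 N K ω a b K = 0 := by
  have : ∀ p q s : Pt, (∃ a b : ℤ, p = ph a b K) → W N K ω p q s = 0 := by
    rintro p q s ⟨a, b, rfl⟩
    unfold W
    rw [if_neg]
    rintro ⟨Q, hQ, hp, -, -⟩
    have := Comp.close hG hQ hp
    omega
  unfold S12
  rw [this _ _ _ ⟨a, b, rfl⟩, this _ _ _ ⟨a, b, rfl⟩]
  simp

/-- tetrahedra touching the bottom plane are in `Comp` -/
lemma comp_of_bottom {Q : Finset Pt} (h : Tet Q) (hb : Q ⊆ box N K) {a b : ℤ} (hm : ph a b 0 ∈ Q) :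
    Comp N K ω Q := ⟨Q, h, hb, ⟨a, b, hm⟩, ReflTransGen.refl⟩

/-- 1-form on the bottom plane -/
def t1 (ω : Pt → Fin 3) (a b : ℕ) : ℤ := th (ω (ph a b 0)) (ω (ph (a+1 : ℕ) b 0))
def t2 (ω : Pt → Fin 3) (a b : ℕ) : ℤ := th (ω (ph a b 0)) (ω (ph a (b+1 : ℕ) 0))

lemma S12_bottom {a b : ℕ} (ha : a < N) (hb : b < N) (hK : 1 ≤ K) :
    3 * S12 N K ω a b 0 = t1 ω a b + t2 ω (a+1) b - t1 ω a (b+1) - t2 ω a b := by
  have hadj : ∀ {x y z x' y' z' : ℕ}, 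
      (x' = x ∨ x' = x + 1) ∧ (y' = y ∨ y' = y + 1) ∧ (z' = z ∨ z' = z + 1) →
      ¬ (x' = x ∧ y' = y ∧ z' = z) → adj (ph x y z) (ph x' y' z') := by
    intro x y z x' y' z' h h'
    exact adj_ph (by omega) (by omega)
  have e1 : W N K ω (ph a b (0:ℕ)) (ph (a+1 : ℕ) b (0:ℕ)) (ph (a+1 : ℕ) (b+1 : ℕ) (0:ℕ)) =
      jj (ω (ph a b (0:ℕ))) (ω (ph (a+1 : ℕ) b (0:ℕ))) (ω (ph (a+1 : ℕ) (b+1 : ℕ) (0:ℕ))) := by
    have hT : Tet {ph a b (0:ℕ), ph (a+1 : ℕ) b (0:ℕ), ph (a+1 : ℕ) (b+1 : ℕ) (0:ℕ), 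
      ph (a+1 : ℕ) (b+1 : ℕ) (1 : ℕ)} := by
      apply tet_of_adj <;> apply hadj <;> omega
    have hB : ({ph a b (0:ℕ), ph (a+1 : ℕ) b (0:ℕ), ph (a+1 : ℕ) (b+1 : ℕ) (0:ℕ), 
      ph (a+1 : ℕ) (b+1 : ℕ) (1 : ℕ)} : Finset Pt) ⊆ box N K := by
      intro v hv
      simp only [Finset.mem_insert, Finset.mem_singleton] at hv
      rcases hv with rfl | rfl | rfl | rfl <;> exact ph_mem_box (by omega) (by omega) (by omega)
    exact W_of_comp (comp_of_bottom hT hB (a := a) (b := b) (by simp)) (by simp) (by simp) (by simp)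
  have e2 : W N K ω (ph a b (0:ℕ)) (ph a (b+1 : ℕ) (0:ℕ)) (ph (a+1 : ℕ) (b+1 : ℕ) (0:ℕ)) =
      jj (ω (ph a b (0:ℕ))) (ω (ph a (b+1 : ℕ) (0:ℕ))) (ω (ph (a+1 : ℕ) (b+1 : ℕ) (0:ℕ))) := by
    have hT : Tet {ph a b (0:ℕ), ph a (b+1 : ℕ) (0:ℕ), ph (a+1 : ℕ) (b+1 : ℕ) (0:ℕ), 
      ph (a+1 : ℕ) (b+1 : ℕ) (1 : ℕ)} := by
      apply tet_of_adj <;> apply hadj <;> omega
    have hB : ({ph a b (0:ℕ), ph a (b+1 : ℕ) (0:ℕ), ph (a+1 : ℕ) (b+1 : ℕ) (0:ℕ), 
      ph (a+1 : ℕ) (b+1 : ℕ) (1 : ℕ)} : Finset Pt) ⊆ box N K := by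
      intro v hv
      simp only [Finset.mem_insert, Finset.mem_singleton] at hv
      rcases hv with rfl | rfl | rfl | rfl <;> exact ph_mem_box (by omega) (by omega) (by omega)
    exact W_of_comp (comp_of_bottom hT hB (a := a) (b := b) (by simp)) (by simp) (by simp) (by simp)
  have j1 := three_jj (ω (ph a b (0:ℕ))) (ω (ph (a+1 : ℕ) b (0:ℕ))) (ω (ph (a+1 : ℕ) (b+1 : ℕ) (0:ℕ)))
  have j2 := three_jj (ω (ph a b (0:ℕ))) (ω (ph a (b+1 : ℕ) (0:ℕ))) (ω (ph (a+1 : ℕ) (b+1 : ℕ) (0:ℕ)))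
  unfold S12 t1 t2
  rw [e1, e2]
  simp only [Nat.cast_zero] at j1 j2 ⊢
  linarith

/-- curtain fluxes -/
noncomputable def K1 (N K : ℕ) (ω : Pt → Fin 3) (a b : ℕ) : ℤ := ∑ c ∈ range K, S13 N K ω a b c
noncomputable def K2 (N K : ℕ) (ω : Pt → Fin 3) (a b : ℕ) : ℤ := ∑ c ∈ range K, S23 N K ω a b c

/-- corrected gradient -/
noncomputable def g1 (N K : ℕ) (ω : Pt → Fin 3) (a b : ℕ) : ℤ := t1 ω a b - 3 * K1 N K ω a b
noncomputable def g2 (N K : ℕ) (ω : Pt → Fin 3) (a b : ℕ) : ℤ := t2 ω a b - 3 * K2 N K ω a b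

lemma g_closed (hG : Good N K r ω) (hK : r < K) {a b : ℕ} (ha : a < N) (hb : b < N) :
    g1 N K ω a b + g2 N K ω (a+1) b = g1 N K ω a (b+1) + g2 N K ω a b := by
  have h1 : ∑ c ∈ range K, (S12 N K ω a b c - S12 N K ω a b (c+1)) = 
      K1 N K ω a b - K1 N K ω a (b+1) + K2 N K ω (a+1) b - K2 N K ω a b := by
    unfold K1 K2
    rw [← Finset.sum_sub_distrib, ← Finset.sum_add_distrib, ← Finset.sum_sub_distrib]
    refine Finset.sum_congr rfl fun c hc => ?_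
    exact cube_rel ha hb (Finset.mem_range.1 hc)
  rw [Finset.sum_range_sub', S12_top hG hK] at h1
  have h2 := S12_bottom (N := N) (K := K) (ω := ω) ha hb (by omega)
  unfold g1 g2
  linarith

/-- the height function -/
noncomputable def ht (N K : ℕ) (ω : Pt → Fin 3) (a b : ℕ) : ℤ :=
  ((ω (ph 0 0 0) : ℕ) : ℤ) + ∑ i ∈ range a, g1 N K ω i 0 + ∑ j ∈ range b, g2 N K ω a j

lemma ht_succ2 (a b : ℕ) : ht N K ω a (b+1) - ht N K ω a b = g2 N K ω a b := by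
  unfold ht
  rw [Finset.sum_range_succ]
  ring

lemma ht_succ1 (hG : Good N K r ω) (hK : r < K) {a b : ℕ} (ha : a < N) (hb : b ≤ N) :
    ht N K ω (a+1) b - ht N K ω a b = g1 N K ω a b := by
  induction b with
  | zero => 
    unfold ht
    rw [Finset.sum_range_succ]
    simp
  | succ b ih =>
    have h1 := ih (by omega)
    have h2 := ht_succ2 (N := N) (K := K) (ω := ω) a b
    have h3 := ht_succ2 (N := N) (K := K) (ω := ω) (a+1) b
    have h4 := g_closed hG hK ha (b := b) (by omega)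
    linarith

lemma t1_mod (a b : ℕ) : (3 : ℤ) ∣ t1 ω a b - ((ω (ph (a+1 : ℕ) b 0) : ℕ) : ℤ)
    + ((ω (ph a b 0) : ℕ) : ℤ) := th_mod _ _

lemma t2_mod (a b : ℕ) : (3 : ℤ) ∣ t2 ω a b - ((ω (ph a (b+1 : ℕ) 0) : ℕ) : ℤ)
    + ((ω (ph a b 0) : ℕ) : ℤ) := th_mod _ _

lemma ht_mod (a b : ℕ) : (3 : ℤ) ∣ ht N K ω a b - ((ω (ph a b 0) : ℕ) : ℤ) := by
  have h0 : (3 : ℤ) ∣ ht N K ω a 0 - ((ω (ph a (0:ℕ) 0) : ℕ) : ℤ) := by
    induction a with
    | zero => simp [ht]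
    | succ a ih =>
      have h1 : ht N K ω (a+1) 0 = ht N K ω a 0 + g1 N K ω a 0 := by
        unfold ht
        rw [Finset.sum_range_succ]
        simp
        ring
      have h2 := t1_mod (ω := ω) a 0
      rw [h1]
      unfold g1
      omega
  induction b with
  | zero => exact h0
  | succ b ih =>
    have h1 := ht_succ2 (N := N) (K := K) (ω := ω) a b
    have h2 := t2_mod (ω := ω) a b
    unfold g2 at h1
    omega

end Pool.Agent.R970.Tri
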