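import Pool.Agent.R970.Tri.Geo

set_option autoImplicit false

/-! Influence of one colour on the height function. -/

namespace Pool.Agent.R970.Tri

open Finset Function Relation

variable {N K r : ℕ} {ω ω' : Pt → Fin 3}

lemma conn_transfer {y : Pt} (hG : Good N K r ω) (hoff : ∀ v, v ≠ y → ω v = ω' v)
    {Q0 Q : Finset Pt} (h : Conn N K ω Q0 Q) {v : Pt} (hv : v ∈ Q)
    (hfar : ∃ i, (r : ℤ) < |y i - v i|) : Conn N K ω' Q0 Q := by
  induction h using ReflTransGen.head_induction_on with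
  | refl => exact ReflTransGen.refl
  | head h1 h2 ih =>
    refine ReflTransGen.head ⟨h1.1.congr ?_, h1.2⟩ ih
    intro u hu
    apply hoff
    rintro rfl
    obtain ⟨i, hi⟩ := hfar
    have := hG _ Q ⟨h1.1.1, h1.1.2.2.2.1⟩ h1.2.1 (ReflTransGen.head h1 h2) _
      (Finset.mem_inter.1 hu).1 _ hv i
    omega

lemma far_of {a b c y1 y2 y3 : ℤ} (h : ¬ (|a - y1| ≤ (r : ℤ) ∧ |b - y2| ≤ (r : ℤ))) :
    ∃ i, (r : ℤ) < |ph y1 y2 y3 i - ph a b c i| := by
  by_contra hcon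
  push Not at hcon
  apply h
  have h0 := hcon 0
  have h1 := hcon 1
  have h2 := hcon 2
  simp only [ph0, ph1, ph2, abs_le] at h0 h1 h2
  constructor <;> rw [abs_le] <;> omega

lemma comp_transfer {y : Pt} (hG : Good N K r ω) (hoff : ∀ v, v ≠ y → ω v = ω' v)
    {Q : Finset Pt} (h : Comp N K ω Q) {v : Pt} (hv : v ∈ Q)
    (hfar : ∃ i, (r : ℤ) < |y i - v i|) : Comp N K ω' Q := by
  obtain ⟨Q0, h1, h2, h3, h4⟩ := h
  exact ⟨Q0, h1, h2, h3, conn_transfer hG hoff h4 hv hfar⟩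

lemma W_transfer {y : Pt} (hG : Good N K r ω) (hG' : Good N K r ω')
    (hoff : ∀ v, v ≠ y → ω v = ω' v) {p q s : Pt} (hfar : ∃ i, (r : ℤ) < |y i - p i|) :
    W N K ω p q s = W N K ω' p q s := by
  unfold W
  by_cases h : ∃ Q, Comp N K ω Q ∧ p ∈ Q ∧ q ∈ Q ∧ s ∈ Q
  · rw [if_pos h]
    obtain ⟨Q, hQ, h1, h2, h3⟩ := h
    rw [if_pos ⟨Q, comp_transfer hG hoff hQ h1 hfar, h1, h2, h3⟩]
    have hy : ∀ v ∈ Q, v ≠ y := by
      rintro v hv rfl
      obtain ⟨i, hi⟩ := hfar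
      have := hG Q Q hQ.tet.1 hQ.tet.2 ReflTransGen.refl _ hv _ h1 i
      omega
    rw [hoff p (hy p h1), hoff q (hy q h2), hoff s (hy s h3)]
  · rw [if_neg h, if_neg]
    rintro ⟨Q, hQ, h1, h2, h3⟩
    exact h ⟨Q, comp_transfer hG' (fun v hv => (hoff v hv).symm) hQ h1 hfar, h1, h2, h3⟩

/-- base points near the changed site -/
def Near (r y1 y2 a b : ℕ) : Prop := |(a : ℤ) - y1| ≤ (r : ℤ) ∧ |(b : ℤ) - y2| ≤ (r : ℤ)

lemma g1_transfer {y1 y2 y3 : ℕ} (hr : 1 ≤ r) (hG : Good N K r ω) (hG' : Good N K r ω')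
    (hoff : ∀ v, v ≠ ph y1 y2 y3 → ω v = ω' v) {a b : ℕ} (h : ¬ Near r y1 y2 a b) :
    g1 N K ω a b = g1 N K ω' a b := by
  have e1 : K1 N K ω a b = K1 N K ω' a b := by
    unfold K1 S13
    refine Finset.sum_congr rfl fun c _ => ?_
    rw [W_transfer hG hG' hoff (far_of h), W_transfer hG hG' hoff (far_of h)]
  have e2 : t1 ω a b = t1 ω' a b := by
    unfold t1
    rw [hoff (ph a b 0), hoff (ph (a+1 : ℕ) b 0)]
    · intro he
      obtain ⟨h1, h2, -⟩ := ph_inj he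
      exact h ⟨by rw [abs_le]; omega, by rw [abs_le]; omega⟩
    · intro he
      obtain ⟨h1, h2, -⟩ := ph_inj he
      exact h ⟨by rw [abs_le]; omega, by rw [abs_le]; omega⟩
  unfold g1
  rw [e1, e2]

lemma g2_transfer {y1 y2 y3 : ℕ} (hr : 1 ≤ r) (hG : Good N K r ω) (hG' : Good N K r ω')
    (hoff : ∀ v, v ≠ ph y1 y2 y3 → ω v = ω' v) {a b : ℕ} (h : ¬ Near r y1 y2 a b) :
    g2 N K ω a b = g2 N K ω' a b := by
  have e1 : K2 N K ω a b = K2 N K ω' a b := by
    unfold K2 S23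
    refine Finset.sum_congr rfl fun c _ => ?_
    rw [W_transfer hG hG' hoff (far_of h), W_transfer hG hG' hoff (far_of h)]
  have e2 : t2 ω a b = t2 ω' a b := by
    unfold t2
    rw [hoff (ph a b 0), hoff (ph a (b+1 : ℕ) 0)]
    · intro he
      obtain ⟨h1, h2, -⟩ := ph_inj he
      exact h ⟨by rw [abs_le]; omega, by rw [abs_le]; omega⟩
    · intro he
      obtain ⟨h1, h2, -⟩ := ph_inj he
      exact h ⟨by rw [abs_le]; omega, by rw [abs_le]; omega⟩
  unfold g2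
  rw [e1, e2]

lemma abs_S13 (a b c : ℕ) : |S13 N K ω a b c| ≤ 2 := by
  unfold S13
  refine (abs_sub _ _).trans ?_
  have h1 := abs_W (N := N) (K := K) (ω := ω) (ph a b c) (ph (a+1 : ℕ) b c) (ph (a+1 : ℕ) b (c+1 : ℕ))
  have h2 := abs_W (N := N) (K := K) (ω := ω) (ph a b c) (ph a b (c+1 : ℕ)) (ph (a+1 : ℕ) b (c+1 : ℕ))
  linarith

lemma abs_g1 (a b : ℕ) : |g1 N K ω a b| ≤ 6 * K + 1 := by
  have h1 : |K1 N K ω a b| ≤ 2 * K := by
    unfold K1
    refine (Finset.abs_sum_le_sum_abs _ _).trans ?_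
    refine (Finset.sum_le_sum fun c _ => abs_S13 a b c).trans ?_
    simp [mul_comm]
  have h2 : |t1 ω a b| ≤ 1 := abs_th _ _
  unfold g1
  rw [abs_le] at *
  omega

/-- an abstract lemma on functions on a grid which are constant away from a small square -/
lemma grid_const {N r y1 y2 : ℕ} {M : ℤ} (hM : 0 ≤ M) (hN : 2 * r + 1 ≤ N) (hy1 : y1 ≤ N) (hy2 : y2 ≤ N)
    (D : ℕ → ℕ → ℤ)
    (h1 : ∀ a b, a < N → b ≤ N → |D (a+1) b - D a b| ≤ M)
    (h1' : ∀ a b, a < N → b ≤ N → ¬ Near r y1 y2 a b → D (a+1) b = D a b)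
    (h2' : ∀ a b, a ≤ N → b < N → ¬ Near r y1 y2 a b → D a (b+1) = D a b) :
    ∃ a0 b0, a0 ≤ N ∧ b0 ≤ N ∧ ¬ Near r y1 y2 a0 b0 ∧ 
      (∀ a b, a ≤ N → b ≤ N → ¬ Near r y1 y2 a b → D a b = D a0 b0) ∧
      (∀ a b, a ≤ N → b ≤ N → |D a b - D a0 b0| ≤ (2 * r + 1) * M) := by
  obtain ⟨a0, ha0, hfa⟩ : ∃ a0 : ℕ, a0 ≤ N ∧ ((a0 : ℤ) = y1 - r - 1 ∨ (a0 : ℤ) = y1 + r + 1) := by
    by_cases h : r + 1 ≤ y1
    · exact ⟨y1 - r - 1, by omega, by left; omega⟩
    · exact ⟨y1 + r + 1, by omega, by right; push_cast; ring⟩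
  obtain ⟨b0, hb0, hfb⟩ : ∃ b0 : ℕ, b0 ≤ N ∧ ((b0 : ℤ) = y2 - r - 1 ∨ (b0 : ℤ) = y2 + r + 1) := by
    by_cases h : r + 1 ≤ y2
    · exact ⟨y2 - r - 1, by omega, by left; omega⟩
    · exact ⟨y2 + r + 1, by omega, by right; push_cast; ring⟩
  have na : ∀ b : ℕ, ¬ Near r y1 y2 a0 b := by
    intro b h
    have := h.1
    rw [abs_le] at this
    omega
  have nb : ∀ a : ℕ, ¬ Near r y1 y2 a b0 := by
    intro a h
    have := h.2
    rw [abs_le] at this
    omega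
  -- columns outside
  have hcol : ∀ a, a ≤ N → (∀ b, ¬ Near r y1 y2 a b) → ∀ b, b ≤ N → D a b = D a 0 := by
    intro a ha hn b
    induction b with
    | zero => intro _; rfl
    | succ b ih => intro hb; rw [h2' a b ha (by omega) (hn b)]; exact ih (by omega)
  have hrow : ∀ b, b ≤ N → (∀ a, ¬ Near r y1 y2 a b) → ∀ a, a ≤ N → D a b = D 0 b := by
    intro b hb hn a
    induction a with
    | zero => intro _; rfl
    | succ a ih => intro ha; rw [h1' a b (by omega) hb (hn a)]; exact ih (by omega)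
  have hLip : ∀ b, b ≤ N → ∀ k a : ℕ, a + k ≤ N → |D (a+k) b - D a b| ≤ k * M := by
    intro b hb k
    induction k with
    | zero => intro a _; simp
    | succ k ih =>
      intro a ha
      have e1 := ih a (by omega)
      have e2 := h1 (a + k) b (by omega) hb
      have e3 : D (a + (k + 1)) b - D a b = (D (a + k + 1) b - D (a+k) b) + (D (a+k) b - D a b) := by
        rw [← add_assoc]; ring
      rw [e3]
      refine (abs_add_le _ _).trans ?_
      push_cast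
      linarith
  have hout : ∀ a b, a ≤ N → b ≤ N → ¬ Near r y1 y2 a b → D a b = D a0 b0 := by
    intro a b ha hb hn
    by_cases hc : |(a : ℤ) - y1| ≤ (r : ℤ)
    · -- then the row is outside
      have hr : ∀ a', ¬ Near r y1 y2 a' b := fun a' h' => hn ⟨hc, h'.2⟩
      rw [hrow b hb hr a ha, ← hrow b hb hr a0 ha0, hcol a0 ha0 na b hb, hcol a0 ha0 na b0 hb0]
    · have hr : ∀ b', ¬ Near r y1 y2 a b' := fun b' h' => hc h'.1
      rw [hcol a ha hr b hb, ← hcol a ha hr b0 hb0, hrow b0 hb0 nb a ha, hrow b0 hb0 nb a0 ha0]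
  refine ⟨a0, b0, ha0, hb0, na b0, hout, ?_⟩
  intro a b ha hb
  by_cases hn : Near r y1 y2 a b
  · have e1 : D a0 b = D a0 b0 := hout a0 b ha0 hb (na b)
    rw [← e1]
    have h3 := hn.1
    rw [abs_le] at h3
    rcases hfa with hfa | hfa
    · -- a0 ≤ a
      obtain ⟨k, hk⟩ : ∃ k : ℕ, a = a0 + k := ⟨a - a0, by omega⟩
      have := hLip b hb k a0 (by omega)
      rw [hk]
      refine this.trans ?_
      have : (k : ℤ) ≤ 2 * r + 1 := by omega
      exact mul_le_mul_of_nonneg_right this hM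
    · obtain ⟨k, hk⟩ : ∃ k : ℕ, a0 = a + k := ⟨a0 - a, by omega⟩
      have := hLip b hb k a (by omega)
      rw [hk, abs_sub_comm]
      refine this.trans ?_
      have : (k : ℤ) ≤ 2 * r + 1 := by omega
      exact mul_le_mul_of_nonneg_right this hM
  · rw [hout a b ha hb hn]
    simp
    positivity

/-- the number of near base points -/
lemma card_near (N r y1 y2 : ℕ) [DecidablePred fun p : ℕ × ℕ => Near r y1 y2 p.1 p.2] :
    (((range (N+1)) ×ˢ (range (N+1))).filter (fun p => Near r y1 y2 p.1 p.2)).card ≤ 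
      (2 * r + 1) ^ 2 := by
  have hsub : (((range (N+1)) ×ˢ (range (N+1))).filter (fun p => Near r y1 y2 p.1 p.2)) ⊆
      (Finset.Icc (y1 - r) (y1 + r)) ×ˢ (Finset.Icc (y2 - r) (y2 + r)) := by
    intro p hp
    rw [Finset.mem_filter] at hp
    obtain ⟨-, h1, h2⟩ := hp
    rw [abs_le] at h1 h2
    rw [Finset.mem_product, Finset.mem_Icc, Finset.mem_Icc]
    omega
  refine (Finset.card_le_card hsub).trans ?_
  rw [Finset.card_product, Nat.card_Icc, Nat.card_Icc, sq]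
  exact Nat.mul_le_mul (by omega) (by omega)

/-- total of the height function over the bottom plane -/
noncomputable def tot (N K : ℕ) (ω : Pt → Fin 3) : ℤ :=
  ∑ p ∈ (range (N+1)) ×ˢ (range (N+1)), ht N K ω p.1 p.2

/-- The main influence estimate -/
lemma tot_influence {y1 y2 y3 : ℕ} (hr : 1 ≤ r) (hK : r < K) (hN : 2 * r + 1 ≤ N) 
    (hy1 : y1 ≤ N) (hy2 : y2 ≤ N) (hG : Good N K r ω) (hG' : Good N K r ω')
    (hoff : ∀ v, v ≠ ph y1 y2 y3 → ω v = ω' v) :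
    ∃ k : ℤ, |tot N K ω' - tot N K ω - 3 * k * ((N : ℤ)+1)^2| ≤
      (2 * (r : ℤ) + 1)^3 * (2 * (6 * (K : ℤ) + 1)) := by
  classical
  have hM : (0 : ℤ) ≤ 2 * (6 * K + 1) := by positivity
  obtain ⟨a0, b0, ha0, hb0, hn0, hout, hin⟩ := grid_const (N := N) (r := r) (y1 := y1) (y2 := y2)
    (M := 2 * (6 * K + 1)) hM hN hy1 hy2 (fun a b => ht N K ω' a b - ht N K ω a b)
    (by
      intro a b ha hb
      have e1 := ht_succ1 hG hK ha hb
      have e2 := ht_succ1 hG' hK ha hb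
      have e3 : ht N K ω' (a+1) b - ht N K ω (a+1) b - (ht N K ω' a b - ht N K ω a b) =
        g1 N K ω' a b - g1 N K ω a b := by linarith
      rw [e3]
      refine (abs_sub _ _).trans ?_
      have := abs_g1 (N := N) (K := K) (ω := ω) a b
      have := abs_g1 (N := N) (K := K) (ω := ω') a b
      linarith)
    (by
      intro a b ha hb hn
      have e1 := ht_succ1 hG hK ha hb
      have e2 := ht_succ1 hG' hK ha hb
      have e3 := g1_transfer hr hG hG' hoff hn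
      show ht N K ω' (a+1) b - ht N K ω (a+1) b = ht N K ω' a b - ht N K ω a b
      linarith)
    (by
      intro a b ha hb hn
      have e1 := ht_succ2 (N := N) (K := K) (ω := ω) a b
      have e2 := ht_succ2 (N := N) (K := K) (ω := ω') a b
      have e3 := g2_transfer hr hG hG' hoff hn
      show ht N K ω' a (b+1) - ht N K ω a (b+1) = ht N K ω' a b - ht N K ω a b
      linarith)
  have h3 : (3 : ℤ) ∣ ht N K ω' a0 b0 - ht N K ω a0 b0 := by
    have e1 := ht_mod (N := N) (K := K) (ω := ω) a0 b0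
    have e2 := ht_mod (N := N) (K := K) (ω := ω') a0 b0
    have e3 : ω (ph a0 b0 0) = ω' (ph a0 b0 0) := by
      apply hoff
      intro he
      obtain ⟨q1, q2, -⟩ := ph_inj he
      apply hn0
      have : (a0 : ℤ) - y1 = 0 := by omega
      have h' : (b0 : ℤ) - y2 = 0 := by omega
      exact ⟨by rw [this]; simp, by rw [h']; simp⟩
    rw [e3] at e1
    omega
  obtain ⟨k, hk⟩ := h3
  refine ⟨k, ?_⟩
  have h4 : tot N K ω' - tot N K ω - 3 * k * (N+1)^2 =
      ∑ p ∈ (range (N+1)) ×ˢ (range (N+1)), ((ht N K ω' p.1 p.2 - ht N K ω p.1 p.2) - 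
        (ht N K ω' a0 b0 - ht N K ω a0 b0)) := by
    rw [Finset.sum_sub_distrib, Finset.sum_sub_distrib, Finset.sum_const, Finset.card_product, 
      Finset.card_range, hk, nsmul_eq_mul]
    unfold tot
    push_cast
    ring
  rw [h4]
  refine (Finset.abs_sum_le_sum_abs _ _).trans ?_
  have h5 : ∑ p ∈ (range (N+1)) ×ˢ (range (N+1)), |(ht N K ω' p.1 p.2 - ht N K ω p.1 p.2) - 
        (ht N K ω' a0 b0 - ht N K ω a0 b0)| ≤ 
      ∑ p ∈ (range (N+1)) ×ˢ (range (N+1)), (if Near r y1 y2 p.1 p.2 then 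
        (2 * (r : ℤ) + 1) * (2 * (6 * (K : ℤ) + 1)) else (0 : ℤ)) := by
    refine Finset.sum_le_sum fun p hp => ?_
    rw [Finset.mem_product, Finset.mem_range, Finset.mem_range] at hp
    split_ifs with hn
    · exact hin p.1 p.2 (by omega) (by omega)
    · have := hout p.1 p.2 (by omega) (by omega) hn
      rw [this]
      simp
  refine h5.trans ?_
  rw [← Finset.sum_filter, Finset.sum_const, nsmul_eq_mul]
  have h6 := card_near N r y1 y2
  have h7 : (((((range (N+1)) ×ˢ (range (N+1))).filter (fun p => Near r y1 y2 p.1 p.2)).card : ℕ) : ℤ) ≤ 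
      (2 * (r : ℤ) + 1) ^ 2 := by exact_mod_cast h6
  have h8 : (0 : ℤ) ≤ (2 * r + 1) * (2 * (6 * K + 1)) := by positivity
  calc _ ≤ (2 * (r : ℤ) + 1) ^ 2 * ((2 * r + 1) * (2 * (6 * K + 1))) := 
        mul_le_mul_of_nonneg_right h7 h8
    _ = _ := by ring

/-- rotating the colours -/
def rot (ω : Pt → Fin 3) : Pt → Fin 3 := fun v => ω v + 1

lemma step_rot {Q R : Finset Pt} : step (rot ω) Q R ↔ step ω Q R := by
  have key : ∀ ω : Pt → Fin 3, (∀ c : Fin 3, ∃ v ∈ Q ∩ R, rot ω v = c) ↔ 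
      (∀ c : Fin 3, ∃ v ∈ Q ∩ R, ω v = c) := by
    intro ω
    constructor
    · intro h c
      obtain ⟨v, hv, hc⟩ := h (c + 1)
      exact ⟨v, hv, by simpa [rot] using hc⟩
    · intro h c
      obtain ⟨v, hv, hc⟩ := h (c - 1)
      exact ⟨v, hv, by simp [rot, hc]⟩
  unfold step
  rw [key]

lemma conn_rot {Q R : Finset Pt} : Conn N K (rot ω) Q R ↔ Conn N K ω Q R := by
  have : stepI N K (rot ω) = stepI N K ω := by
    funext Q R
    unfold stepI
    rw [step_rot]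
  unfold Conn
  rw [this]

lemma good_rot : Good N K r (rot ω) ↔ Good N K r ω := by
  unfold Good
  simp only [conn_rot]

lemma comp_rot {Q : Finset Pt} : Comp N K (rot ω) Q ↔ Comp N K ω Q := by
  unfold Comp
  simp only [conn_rot]

lemma W_rot (p q s : Pt) : W N K (rot ω) p q s = W N K ω p q s := by
  have h : (∃ Q, Comp N K (rot ω) Q ∧ p ∈ Q ∧ q ∈ Q ∧ s ∈ Q) ↔
      (∃ Q, Comp N K ω Q ∧ p ∈ Q ∧ q ∈ Q ∧ s ∈ Q) := by
    constructor
    · rintro ⟨Q, h1, h2⟩; exact ⟨Q, comp_rot.1 h1, h2⟩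
    · rintro ⟨Q, h1, h2⟩; exact ⟨Q, comp_rot.2 h1, h2⟩
  unfold W
  by_cases hc : ∃ Q, Comp N K ω Q ∧ p ∈ Q ∧ q ∈ Q ∧ s ∈ Q
  · rw [if_pos hc, if_pos (h.2 hc)]
    simp only [rot, jj_add]
  · rw [if_neg hc, if_neg (fun h' => hc (h.1 h'))]

lemma ht_rot (a b : ℕ) : ht N K (rot ω) a b = ht N K ω a b + 
    (((rot ω (ph 0 0 0) : ℕ) : ℤ) - ((ω (ph 0 0 0) : ℕ) : ℤ)) := by
  have e1 : ∀ a b, g1 N K (rot ω) a b = g1 N K ω a b := by
    intro a b
    unfold g1 t1 K1 S13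
    simp only [W_rot]
    simp only [rot, th_add]
  have e2 : ∀ a b, g2 N K (rot ω) a b = g2 N K ω a b := by
    intro a b
    unfold g2 t2 K2 S23
    simp only [W_rot]
    simp only [rot, th_add]
  unfold ht
  simp only [e1, e2]
  ring

lemma rot_val : ∀ c : Fin 3, ∃ k : ℤ, ((((c + 1 : Fin 3) : ℕ) : ℤ) - ((c : ℕ) : ℤ)) = 1 + 3 * k := by
  intro c
  fin_cases c
  · exact ⟨0, by decide⟩
  · exact ⟨0, by decide⟩
  · exact ⟨-1, by decide⟩

lemma tot_rot (ω : Pt → Fin 3) : ∃ k : ℤ, tot N K (rot ω) = tot N K ω + (1 + 3 * k) * (N+1)^2 := by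
  obtain ⟨k, hk⟩ := rot_val (ω (ph 0 0 0))
  refine ⟨k, ?_⟩
  unfold tot
  simp only [ht_rot]
  rw [Finset.sum_add_distrib, Finset.sum_const, Finset.card_product, Finset.card_range, 
    nsmul_eq_mul]
  have : ((rot ω (ph 0 0 0) : ℕ) : ℤ) - ((ω (ph 0 0 0) : ℕ) : ℤ) = 1 + 3 * k := hk
  rw [this]
  push_cast
  ring

end Pool.Agent.R970.Tri
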