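import Pool.Agent.R970.Tri.Prob

set_option autoImplicit false

/-! The measure: locality, independence, translation invariance. -/

namespace Pool.Agent.R970.Tri

open Finset Function Relation MeasureTheory ProbabilityTheory

/-- uniform law on the three colours -/
noncomputable def unif : Measure (Fin 3) := (PMF.uniformOfFintype (Fin 3)).toMeasure

instance : IsProbabilityMeasure unif := by unfold unif; infer_instance

lemma unif_singleton (g : Fin 3) : unif {g} = 3⁻¹ := by
  unfold unif
  rw [PMF.toMeasure_apply_singleton _ _ (measurableSet_singleton g)]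
  simp [PMF.uniformOfFintype_apply]

/-- all cells independent and uniform -/
noncomputable def mu : Measure (Pt → Fin 3) := Measure.infinitePi (fun _ : Pt => unif)

instance : IsProbabilityMeasure mu := by unfold mu; infer_instance

/-- `A` depends only on the colours of `F` -/
def Local (F : Finset Pt) (A : Set (Pt → Fin 3)) : Prop :=
  ∀ ω ω', (∀ v ∈ F, ω v = ω' v) → ω ∈ A → ω' ∈ A

lemma Local.eq_preimage {F : Finset Pt} {A : Set (Pt → Fin 3)} (h : Local F A) :
    A = (F.restrict : (Pt → Fin 3) → (F → Fin 3)) ⁻¹' (F.restrict '' A) := by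
  ext ω
  constructor
  · intro hω; exact ⟨ω, hω, rfl⟩
  · rintro ⟨ω', hω', he⟩
    refine h ω' ω (fun v hv => ?_) hω'
    exact congrFun he ⟨v, hv⟩

lemma Local.measurableSet {F : Finset Pt} {A : Set (Pt → Fin 3)} (h : Local F A) :
    MeasurableSet A := by
  rw [h.eq_preimage]
  exact (Finset.measurable_restrict F) (Set.toFinite _).measurableSet

lemma Local.compl {F : Finset Pt} {A : Set (Pt → Fin 3)} (h : Local F A) : Local F Aᶜ := by
  intro ω ω' hv hω hω'
  exact hω (h ω' ω (fun v hv' => (hv v hv').symm) hω')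

lemma mu_restrict (F : Finset Pt) (S : Finset (F → Fin 3)) :
    mu ((F.restrict : (Pt → Fin 3) → (F → Fin 3)) ⁻¹' (S : Set (F → Fin 3))) = 
      (S.card : ENNReal) * (3⁻¹) ^ F.card := by
  have h1 : mu ((F.restrict : (Pt → Fin 3) → (F → Fin 3)) ⁻¹' (S : Set (F → Fin 3))) = 
      (Measure.pi (fun _ : F => unif)) (S : Set (F → Fin 3)) := by
    have := Measure.infinitePi_map_restrict (fun _ : Pt => unif) (I := F)
    rw [← this, Measure.map_apply (Finset.measurable_restrict F) (Set.toFinite _).measurableSet]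
    rfl
  rw [h1, ← MeasureTheory.sum_measure_singleton]
  have : ∀ η : F → Fin 3, (Measure.pi (fun _ : F => unif)) {η} = (3⁻¹) ^ F.card := by
    intro η
    rw [Measure.pi_singleton]
    simp [unif_singleton]
  simp [this]

lemma indep_local {F G : Finset Pt} {A B : Set (Pt → Fin 3)} (hA : Local F A) (hB : Local G B)
    (hd : Disjoint F G) : mu (A ∩ B) = mu A * mu B := by
  have h1 : iIndepFun (fun (i : Pt) (ω : Pt → Fin 3) => ω i) mu :=
    iIndepFun_infinitePi (P := fun _ : Pt => unif) (X := fun _ => id) (fun _ => measurable_id)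
  have h2 := h1.indepFun_finset F G hd (fun i => measurable_pi_apply i)
  have h3 := h2.measure_inter_preimage_eq_mul (F.restrict '' A) (G.restrict '' B) 
    (Set.toFinite _).measurableSet (Set.toFinite _).measurableSet
  have eA := hA.eq_preimage
  have eB := hB.eq_preimage
  have e1 : (fun (a : Pt → Fin 3) (i : F) => a i) ⁻¹' (F.restrict '' A) = A := eA.symm
  have e2 : (fun (a : Pt → Fin 3) (i : G) => a i) ⁻¹' (G.restrict '' B) = B := eB.symm
  rw [e1, e2] at h3
  exact h3

/-- translation -/
def sh (t : Pt) (ω : Pt → Fin 3) : Pt → Fin 3 := fun v => ω (v + t)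

lemma mu_shift (t : Pt) {A : Set (Pt → Fin 3)} (hA : MeasurableSet A) : 
    mu ((sh t) ⁻¹' A) = mu A := by
  have h := Measure.infinitePi_map_piCongrLeft (fun _ : Pt => unif) (Equiv.subRight t)
  have he : (⇑(MeasurableEquiv.piCongrLeft (fun _ : Pt => Fin 3) (Equiv.subRight t)) : 
      (Pt → Fin 3) → (Pt → Fin 3)) = sh t := by
    funext ω v
    have := Equiv.piCongrLeft_apply_apply (P := fun _ : Pt => Fin 3) (e := Equiv.subRight t) ω (v + t)
    simp only [Equiv.subRight_apply, add_sub_cancel_right] at this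
    exact this
  rw [he] at h
  have hm : Measurable (sh t) := by
    rw [← he]; exact MeasurableEquiv.measurable _
  unfold mu
  conv_rhs => rw [← h]
  rw [Measure.map_apply hm hA]

/-! ### the main inequality for the slab -/

lemma good_local (N K r : ℕ) : Local (box N K) {ω | Good N K r ω} := by
  intro ω ω' h hω
  exact (Good_congr h).1 hω

lemma main_slab {N K r : ℕ} (hr : 1 ≤ r) (hK : r < K) (hN : 2 * r + 1 ≤ N) :
    1 ≤ ((box N K).card : ℝ) * eps N K r ^ 2 + 
      (((box N K).card : ℝ) + 1) * (mu {ω | ¬ Good N K r ω}).toReal := by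
  classical
  set I := box N K with hI
  have h0 : ∑ η : I → Fin 3, Z N K r (ext I η) = 0 := by
    -- rotation
    let e : (I → Fin 3) ≃ (I → Fin 3) := (Equiv.refl I).arrowCongr (Equiv.addRight (1 : Fin 3))
    have he : ∀ η, e η = fun i => η i + 1 := by
      intro η; rfl
    have h1 : ∑ η : I → Fin 3, Z N K r (ext I η) = 
        Complex.exp ((2 * Real.pi / 3 : ℝ) * Complex.I) * ∑ η : I → Fin 3, Z N K r (ext I η) := by
      conv_lhs => rw [← Equiv.sum_comp e]
      rw [Finset.mul_sum]
      refine Finset.sum_congr rfl fun η _ => ?_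
      rw [← Z_rot]
      apply Z_congr
      intro v hv
      rw [← hI] at hv
      rw [ext_of_mem hv, rot, ext_of_mem hv, he]
    have h2 : Complex.exp ((2 * Real.pi / 3 : ℝ) * Complex.I) ≠ 1 := by
      intro h
      rw [Complex.exp_eq_one_iff] at h
      obtain ⟨n, hn⟩ := h
      have hpi : (Real.pi : ℂ) ≠ 0 := by exact_mod_cast Real.pi_ne_zero
      have hI0 : Complex.I ≠ 0 := Complex.I_ne_zero
      have h3 : ((1 : ℂ) / 3 - n) * (2 * Real.pi * Complex.I) = 0 := by
        have : (((2 * Real.pi / 3 : ℝ) : ℂ)) * Complex.I = (1 / 3) * (2 * Real.pi * Complex.I) := by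
          push_cast; ring
        rw [this] at hn
        rw [sub_mul, hn]; ring
      have h4 : (1 : ℂ) / 3 - n = 0 := by
        rcases mul_eq_zero.1 h3 with h | h
        · exact h
        · exfalso
          have : (2 : ℂ) * Real.pi * Complex.I ≠ 0 :=
            mul_ne_zero (mul_ne_zero two_ne_zero hpi) hI0
          exact this h
      have h5 : (1 : ℂ) = 3 * n := by
        have := sub_eq_zero.1 h4
        rw [← this]; ring
      have h6 : (1 : ℤ) = 3 * n := by exact_mod_cast h5
      omega
    have h3 : (1 - Complex.exp ((2 * Real.pi / 3 : ℝ) * Complex.I)) * 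
        ∑ η : I → Fin 3, Z N K r (ext I η) = 0 := by
      rw [sub_mul, one_mul, ← h1, sub_self]
    rcases mul_eq_zero.1 h3 with h | h
    · exact absurd (sub_eq_zero.1 h).symm h2
    · exact h
  have hv := var_count (ι := I) (fun η => Z N K r (ext I η)) (fun η => ¬ Good N K r (ext I η)) 
    (ε := eps N K r) h0 (fun c hc => Z_bad hc) (fun c hc => norm_Z_good (not_not.1 hc)) 
    (by
      intro c i g h1 h2
      rw [not_not] at h1 h2
      obtain ⟨y1, y2, y3, hy1, hy2, hy3, hy⟩ := mem_box.1 i.2
      refine Z_influence (y1 := y1) (y2 := y2) (y3 := y3) hr hK hN hy1 hy2 h2 h1 ?_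
      intro v hv
      rw [hy] at hv
      exact (ext_update c i g v hv).symm)
  rw [Fintype.card_coe] at hv
  have hmu : mu {ω | ¬ Good N K r ω} = 
      (((univ.filter (fun η : I → Fin 3 => ¬ Good N K r (ext I η))).card : ℕ) : ENNReal) * 
        (3⁻¹) ^ I.card := by
    rw [← mu_restrict]
    congr 1
    ext ω
    simp only [Set.mem_setOf_eq, Set.mem_preimage, Finset.coe_filter, Finset.mem_univ, true_and]
    rw [Good_congr (ω := ω) (ω' := ext I (I.restrict ω))]
    intro v hv
    rw [← hI] at hv
    rw [ext_of_mem hv]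
    rfl
  rw [hmu, ENNReal.toReal_mul, ENNReal.toReal_natCast, ENNReal.toReal_pow, ENNReal.toReal_inv]
  have h3 : (ENNReal.toReal 3) = 3 := by simp
  rw [h3]
  have hpos : (0 : ℝ) < 3 ^ I.card := by positivity
  rw [inv_pow]
  have h4 : (I.card : ℝ) * eps N K r ^ 2 + ((I.card : ℝ) + 1) * 
      (((univ.filter (fun η : I → Fin 3 => ¬ Good N K r (ext I η))).card : ℝ) * (3 ^ I.card)⁻¹) = 
      ((I.card : ℝ) * eps N K r ^ 2 * 3 ^ I.card + ((I.card : ℝ) + 1) * 
      ((univ.filter (fun η : I → Fin 3 => ¬ Good N K r (ext I η))).card : ℝ)) / 3 ^ I.card := by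
    field_simp
  rw [h4, le_div_iff₀ hpos, one_mul]
  convert hv using 3

end Pool.Agent.R970.Tri
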