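import Pool.Agent.R970.Tri.Infl
import Pool.Agent.R970.Tri.ES

set_option autoImplicit false

/-! The probabilistic part: variance bound. -/

namespace Pool.Agent.R970.Tri

open Finset Function Relation MeasureTheory

variable {N K r : ℕ} {ω ω' : Pt → Fin 3}

/-! ### dependence on the slab only -/

lemma stepI_congr (h : ∀ v ∈ box N K, ω v = ω' v) {Q R : Finset Pt} (hs : stepI N K ω Q R) :
    stepI N K ω' Q R :=
  ⟨hs.1.congr fun v hv => h v (hs.2.1 (Finset.mem_inter.1 hv).1), hs.2⟩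

lemma stepI_eq (h : ∀ v ∈ box N K, ω v = ω' v) : stepI N K ω = stepI N K ω' := by
  funext Q R
  exact propext ⟨stepI_congr h, stepI_congr fun v hv => (h v hv).symm⟩

lemma Conn_eq (h : ∀ v ∈ box N K, ω v = ω' v) : Conn N K ω = Conn N K ω' := by
  unfold Conn
  rw [stepI_eq h]

lemma Good_congr (h : ∀ v ∈ box N K, ω v = ω' v) : Good N K r ω ↔ Good N K r ω' := by
  unfold Good
  rw [Conn_eq h]

lemma Comp_eq (h : ∀ v ∈ box N K, ω v = ω' v) : Comp N K ω = Comp N K ω' := by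
  unfold Comp
  rw [Conn_eq h]

lemma W_congr (h : ∀ v ∈ box N K, ω v = ω' v) (p q s : Pt) : W N K ω p q s = W N K ω' p q s := by
  unfold W
  rw [Comp_eq h]
  by_cases hc : ∃ Q, Comp N K ω' Q ∧ p ∈ Q ∧ q ∈ Q ∧ s ∈ Q
  · rw [if_pos hc, if_pos hc]
    obtain ⟨Q, h1, h2, h3, h4⟩ := hc
    rw [h p (h1.tet.2 h2), h q (h1.tet.2 h3), h s (h1.tet.2 h4)]
  · rw [if_neg hc, if_neg hc]

lemma tot_congr (h : ∀ v ∈ box N K, ω v = ω' v) : tot N K ω = tot N K ω' := by
  have e1 : ∀ a b, a < N → b ≤ N → g1 N K ω a b = g1 N K ω' a b := by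
    intro a b ha hb
    unfold g1 t1 K1 S13
    simp only [W_congr h]
    rw [h (ph a b 0) (ph_mem_box (a := a) (b := b) (c := 0) (by omega) (by omega) (by omega)),
      h (ph (a+1 : ℕ) b 0) (ph_mem_box (a := a+1) (b := b) (c := 0) (by omega) (by omega) (by omega))]
  have e2 : ∀ a b, a ≤ N → b < N → g2 N K ω a b = g2 N K ω' a b := by
    intro a b ha hb
    unfold g2 t2 K2 S23
    simp only [W_congr h]
    rw [h (ph a b 0) (ph_mem_box (a := a) (b := b) (c := 0) (by omega) (by omega) (by omega)),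
      h (ph a (b+1 : ℕ) 0) (ph_mem_box (a := a) (b := b+1) (c := 0) (by omega) (by omega) (by omega))]
  unfold tot
  refine Finset.sum_congr rfl fun p hp => ?_
  rw [Finset.mem_product, Finset.mem_range, Finset.mem_range] at hp
  unfold ht
  rw [h (ph 0 0 0) (ph_mem_box (a := 0) (b := 0) (c := 0) (by omega) (by omega) (by omega))]
  congr 1
  · congr 1
    refine Finset.sum_congr rfl fun i hi => ?_
    rw [Finset.mem_range] at hi
    exact e1 i 0 (by omega) (by omega)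
  · refine Finset.sum_congr rfl fun i hi => ?_
    rw [Finset.mem_range] at hi
    exact e2 _ i (by omega) (by omega)

/-- extension of a finite configuration by `0` -/
def ext (I : Finset Pt) (η : I → Fin 3) : Pt → Fin 3 := fun v => if h : v ∈ I then η ⟨v, h⟩ else 0

lemma ext_of_mem {I : Finset Pt} {η : I → Fin 3} {v : Pt} (h : v ∈ I) : ext I η v = η ⟨v, h⟩ := by
  unfold ext; rw [dif_pos h]

lemma ext_update {I : Finset Pt} (η : I → Fin 3) (y : I) (g : Fin 3) :
    ∀ v, v ≠ y.1 → ext I η v = ext I (update η y g) v := by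
  intro v hv
  unfold ext
  split_ifs with h
  · rw [update_of_ne]
    intro h'
    apply hv
    rw [← h']
  · rfl

open Classical in
/-- the order parameter -/
noncomputable def Z (N K r : ℕ) (ω : Pt → Fin 3) : ℂ :=
  if Good N K r ω then Complex.exp (((2 * Real.pi / 3 * ((tot N K ω : ℤ) : ℝ) / ((N : ℝ)+1)^2 : ℝ) : ℂ) * 
    Complex.I) else 0

lemma norm_Z_le (ω : Pt → Fin 3) : ‖Z N K r ω‖ ≤ 1 := by
  unfold Z
  split_ifs
  · rw [Complex.norm_exp_ofReal_mul_I]
  · simp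

lemma norm_Z_good (h : Good N K r ω) : ‖Z N K r ω‖ = 1 := by
  unfold Z
  rw [if_pos h, Complex.norm_exp_ofReal_mul_I]

lemma Z_bad (h : ¬ Good N K r ω) : Z N K r ω = 0 := by
  unfold Z
  rw [if_neg h]

lemma Z_congr (h : ∀ v ∈ box N K, ω v = ω' v) : Z N K r ω = Z N K r ω' := by
  by_cases hg : Good N K r ω
  · have hg' := (Good_congr h).1 hg
    unfold Z
    rw [if_pos hg, if_pos hg', tot_congr h]
  · have hg' : ¬ Good N K r ω' := fun h' => hg ((Good_congr h).2 h')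
    rw [Z_bad hg, Z_bad hg']

lemma Z_rot (ω : Pt → Fin 3) : Z N K r (rot ω) = 
    Complex.exp ((2 * Real.pi / 3 : ℝ) * Complex.I) * Z N K r ω := by
  by_cases hg : Good N K r ω
  · have hg' := good_rot.2 hg
    unfold Z
    rw [if_pos hg, if_pos hg', ← Complex.exp_add]
    obtain ⟨k, hk⟩ := tot_rot (N := N) (K := K) ω
    rw [Complex.exp_eq_exp_iff_exists_int]
    refine ⟨k, ?_⟩
    rw [hk]
    have hN : ((N : ℝ) + 1)^2 ≠ 0 := by positivity
    have : (2 * Real.pi / 3 * (((tot N K ω + (1 + 3 * k) * ((N:ℤ)+1)^2 : ℤ)) : ℝ) / ((N : ℝ)+1)^2 : ℝ) =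
       2 * Real.pi / 3 + 2 * Real.pi / 3 * ((tot N K ω : ℤ) : ℝ) / ((N : ℝ)+1)^2 + k * (2 * Real.pi) := by
      push_cast
      field_simp
      ring
    rw [this]
    push_cast
    ring
  · have hg' : ¬ Good N K r (rot ω) := fun h' => hg (good_rot.1 h')
    rw [Z_bad hg, Z_bad hg', mul_zero]

/-- the bound on the influences -/
noncomputable def eps (N K r : ℕ) : ℝ := 
  2 * Real.pi / 3 * ((2 * (r : ℝ) + 1)^3 * (2 * (6 * (K : ℝ) + 1))) / ((N : ℝ)+1)^2

lemma Z_influence {y1 y2 y3 : ℕ} (hr : 1 ≤ r) (hK : r < K) (hN : 2 * r + 1 ≤ N) 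
    (hy1 : y1 ≤ N) (hy2 : y2 ≤ N) (hG : Good N K r ω) (hG' : Good N K r ω')
    (hoff : ∀ v, v ≠ ph y1 y2 y3 → ω v = ω' v) :
    ‖Z N K r ω' - Z N K r ω‖ ≤ eps N K r := by
  obtain ⟨k, hk⟩ := tot_influence hr hK hN hy1 hy2 hG hG' hoff
  unfold Z
  rw [if_pos hG, if_pos hG']
  set x : ℝ := 2 * Real.pi / 3 * ((tot N K ω : ℤ) : ℝ) / ((N : ℝ)+1)^2 with hx
  set x' : ℝ := 2 * Real.pi / 3 * ((tot N K ω' : ℤ) : ℝ) / ((N : ℝ)+1)^2 with hx'
  set d : ℝ := 2 * Real.pi / 3 * ((tot N K ω' - tot N K ω - 3 * k * ((N : ℤ)+1)^2 : ℤ) : ℝ) / ((N : ℝ)+1)^2 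
    with hd
  have hN : ((N : ℝ) + 1)^2 ≠ 0 := by positivity
  have e1 : x' = x + d + k * (2 * Real.pi) := by
    rw [hx, hx', hd]
    push_cast
    field_simp
    ring
  have e2 : Complex.exp ((x' : ℂ) * Complex.I) = Complex.exp ((x : ℂ) * Complex.I) * 
      Complex.exp (Complex.I * (d : ℂ)) := by
    rw [← Complex.exp_add, Complex.exp_eq_exp_iff_exists_int]
    refine ⟨k, ?_⟩
    rw [e1]
    push_cast
    ring
  rw [e2]
  have e3 : Complex.exp ((x : ℂ) * Complex.I) * Complex.exp (Complex.I * (d : ℂ)) - 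
      Complex.exp ((x : ℂ) * Complex.I) = Complex.exp ((x : ℂ) * Complex.I) * 
      (Complex.exp (Complex.I * (d : ℂ)) - 1) := by ring
  rw [e3, norm_mul, Complex.norm_exp_ofReal_mul_I, one_mul]
  refine (Real.norm_exp_I_mul_ofReal_sub_one_le).trans ?_
  rw [Real.norm_eq_abs, hd, abs_div, abs_mul]
  unfold eps
  have h1 : |((tot N K ω' - tot N K ω - 3 * k * ((N : ℤ)+1)^2 : ℤ) : ℝ)| ≤ 
      (2 * (r : ℝ) + 1)^3 * (2 * (6 * (K : ℝ) + 1)) := by
    exact_mod_cast hk
  rw [abs_of_nonneg (show (0:ℝ) ≤ 2 * Real.pi / 3 by positivity), 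
    abs_of_nonneg (show (0:ℝ) ≤ ((N : ℝ) + 1)^2 by positivity)]
  gcongr

/-! ### The abstract variance inequality -/

lemma ES_complex {ι α : Type*} [Fintype ι] [DecidableEq ι] [Fintype α] [Nonempty α] 
    (f : (ι → α) → ℂ) (h0 : ∑ c, f c = 0) :
    2 * (Fintype.card α : ℝ) * ∑ c, ‖f c‖ ^ 2 ≤ 
      ∑ i, ∑ c, ∑ g, ‖f c - f (update c i g)‖ ^ 2 := by
  have key : ∀ (u : (ι → α) → ℝ), ∑ c, u c = 0 → 
      2 * (Fintype.card α : ℝ) * ∑ c, u c ^ 2 ≤ ∑ i, ∑ c, ∑ g, (u c - u (update c i g)) ^ 2 := by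
    intro u hu
    have h1 := ES u
    rw [DD_eq, hu] at h1
    have hM : (0:ℝ) < (Fintype.card α : ℝ) ^ (Fintype.card ι) := by
      have : 0 < Fintype.card α := Fintype.card_pos
      positivity
    have hc : (Fintype.card (ι → α) : ℝ) = (Fintype.card α : ℝ) ^ (Fintype.card ι) := by
      simp
    rw [hc] at h1
    have h2 : (Fintype.card α : ℝ) ^ (Fintype.card ι) * (2 * (Fintype.card α : ℝ) * ∑ c, u c ^ 2) ≤ 
      (Fintype.card α : ℝ) ^ (Fintype.card ι) * ∑ i, ∑ c, ∑ g, (u c - u (update c i g)) ^ 2 := by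
      calc _ = (Fintype.card α : ℝ) * (2 * (Fintype.card α : ℝ) ^ (Fintype.card ι) * ∑ c, u c ^ 2 - 
              2 * 0 ^ 2) := by ring
        _ ≤ _ := h1
    exact le_of_mul_le_mul_left h2 hM
  have hre : ∑ c, (f c).re = 0 := by
    rw [← Complex.re_sum, h0]; simp
  have him : ∑ c, (f c).im = 0 := by
    rw [← Complex.im_sum, h0]; simp
  have h1 := key _ hre
  have h2 := key _ him
  have e : ∀ z : ℂ, ‖z‖ ^ 2 = z.re ^ 2 + z.im ^ 2 := by
    intro z
    rw [← Complex.normSq_eq_norm_sq, Complex.normSq_apply]; ring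
  simp only [e, Complex.sub_re, Complex.sub_im, Finset.sum_add_distrib, mul_add]
  linarith

lemma sum_update_invol {ι α : Type*} [Fintype ι] [DecidableEq ι] [Fintype α] (i : ι) 
    (F : (ι → α) → ℝ) : ∑ c, ∑ g, F (update c i g) = (Fintype.card α : ℝ) * ∑ c, F c := by
  classical
  have hinv : Function.Involutive (fun p : (ι → α) × α => (update p.1 i p.2, p.1 i)) := by
    rintro ⟨c, g⟩
    simp
  have h := Equiv.sum_comp (Function.Involutive.toPerm _ hinv) (fun p : (ι → α) × α => F p.1)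
  rw [Fintype.sum_prod_type, Fintype.sum_prod_type] at h
  simp only [Function.Involutive.coe_toPerm, Finset.sum_const, Finset.card_univ, nsmul_eq_mul,
    ← Finset.mul_sum] at h
  exact h

/-- counting form of the main inequality -/
lemma var_count {ι : Type*} [Fintype ι] [DecidableEq ι] (f : (ι → Fin 3) → ℂ) 
    (bad : (ι → Fin 3) → Prop) [DecidablePred bad] {ε : ℝ} (h0 : ∑ c, f c = 0)
    (hbad : ∀ c, bad c → f c = 0) (hgood : ∀ c, ¬ bad c → ‖f c‖ = 1)
    (hinf : ∀ c i g, ¬ bad c → ¬ bad (update c i g) → ‖f c - f (update c i g)‖ ≤ ε) :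
    (3 : ℝ) ^ (Fintype.card ι) ≤ (Fintype.card ι : ℝ) * ε ^ 2 * (3 : ℝ) ^ (Fintype.card ι) + 
      ((Fintype.card ι : ℝ) + 1) * ((univ.filter bad).card : ℝ) := by
  have h1 := ES_complex f h0
  simp only [Fintype.card_fin] at h1
  have hle : ∀ c, ‖f c‖ ≤ 1 := by
    intro c
    by_cases h : bad c
    · rw [hbad c h]; simp
    · rw [hgood c h]
  have h2 : ∀ c, ‖f c‖ ^ 2 = 1 - (if bad c then (1:ℝ) else 0) := by
    intro c
    split_ifs with h
    · rw [hbad c h]; simp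
    · rw [hgood c h]; simp
  have hB : ∑ c, (if bad c then (1:ℝ) else 0) = ((univ.filter bad).card : ℝ) := by
    rw [Finset.sum_boole]
  have hM : (Fintype.card (ι → Fin 3) : ℝ) = (3 : ℝ) ^ (Fintype.card ι) := by
    simp
  have h3 : ∑ c, ‖f c‖ ^ 2 = (3 : ℝ) ^ (Fintype.card ι) - ((univ.filter bad).card : ℝ) := by
    simp only [h2, Finset.sum_sub_distrib, hB]
    rw [← hM]
    simp
  have h4 : ∀ c i g, ‖f c - f (update c i g)‖ ^ 2 ≤ ε ^ 2 + (if bad c then (1:ℝ) else 0) + 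
      (if bad (update c i g) then (1:ℝ) else 0) := by
    intro c i g
    have hε2 : 0 ≤ ε ^ 2 := sq_nonneg ε
    by_cases hc : bad c
    · have : ‖f c - f (update c i g)‖ ^ 2 ≤ 1 := by
        rw [hbad c hc, zero_sub, norm_neg]
        exact pow_le_one₀ (norm_nonneg _) (hle _)
      rw [if_pos hc]
      have : (0:ℝ) ≤ (if bad (update c i g) then (1:ℝ) else 0) := by split_ifs <;> simp
      linarith
    · by_cases hc' : bad (update c i g)
      · have : ‖f c - f (update c i g)‖ ^ 2 ≤ 1 := by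
          rw [hbad _ hc', sub_zero]
          exact pow_le_one₀ (norm_nonneg _) (hle _)
        rw [if_pos hc', if_neg hc]
        linarith
      · rw [if_neg hc, if_neg hc']
        have := hinf c i g hc hc'
        have : ‖f c - f (update c i g)‖ ^ 2 ≤ ε ^ 2 := pow_le_pow_left₀ (norm_nonneg _) this 2
        linarith
  have h5 : ∑ i, ∑ c, ∑ g, ‖f c - f (update c i g)‖ ^ 2 ≤ 
      ∑ i : ι, (3 * (3 : ℝ) ^ (Fintype.card ι) * ε ^ 2 + 6 * ((univ.filter bad).card : ℝ)) := by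
    refine Finset.sum_le_sum fun i _ => ?_
    refine (Finset.sum_le_sum fun c _ => Finset.sum_le_sum fun g _ => h4 c i g).trans ?_
    simp only [Finset.sum_add_distrib]
    rw [sum_update_invol i (fun c => if bad c then (1:ℝ) else 0)]
    simp only [Finset.sum_const, Finset.card_univ, nsmul_eq_mul, Fintype.card_fin, ← Finset.mul_sum]
    rw [hB, hM]
    push_cast
    linarith
  rw [h3] at h1
  rw [Finset.sum_const, Finset.card_univ, nsmul_eq_mul] at h5
  have h6 := h1.trans h5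
  have h7 : 0 ≤ (Fintype.card ι : ℝ) * ε ^ 2 * (3 : ℝ) ^ (Fintype.card ι) := by positivity
  push_cast at h6
  nlinarith

end Pool.Agent.R970.Tri
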